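import Mathlib

/-! MP_4c7af0_al, groups of rank one (helper88), module RO/A: matrices with weights -/

set_option linter.unusedSectionVars false

namespace BoomRO

variable {ι : Type*} [Fintype ι] [DecidableEq ι] {K : Type*} [Field K]

/-- the matrices of degree at least `k` -/
def Fil (w : ι → ℤ) (k : ℤ) : Set (Matrix ι ι K) := {M | ∀ i j, w i < w j + k → M i j = 0}

/-- the component of degree `k` -/
def comp (w : ι → ℤ) (k : ℤ) (M : Matrix ι ι K) : Matrix ι ι K :=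
  Matrix.of fun i j => if w i = w j + k then M i j else 0

variable {w : ι → ℤ}

theorem comp_apply (k : ℤ) (M : Matrix ι ι K) (i j : ι) :
    comp w k M i j = if w i = w j + k then M i j else 0 := rfl

theorem fil_mono {a b : ℤ} (h : a ≤ b) : (Fil w b : Set (Matrix ι ι K)) ⊆ Fil w a :=
  fun _ hM i j hij => hM i j (by omega)

theorem fil_add {k : ℤ} {M N : Matrix ι ι K} (hM : M ∈ Fil w k) (hN : N ∈ Fil w k) : M + N ∈ Fil w k := by
  intro i j hij
  rw [Matrix.add_apply, hM i j hij, hN i j hij, add_zero]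

theorem fil_neg {k : ℤ} {M : Matrix ι ι K} (hM : M ∈ Fil w k) : -M ∈ Fil w k := by
  intro i j hij
  rw [Matrix.neg_apply, hM i j hij, neg_zero]

theorem fil_sub {k : ℤ} {M N : Matrix ι ι K} (hM : M ∈ Fil w k) (hN : N ∈ Fil w k) : M - N ∈ Fil w k := by
  rw [sub_eq_add_neg]
  exact fil_add hM (fil_neg hN)

theorem fil_zero (k : ℤ) : (0 : Matrix ι ι K) ∈ Fil w k := fun _ _ _ => rfl

theorem fil_mul {a b : ℤ} {M N : Matrix ι ι K} (hM : M ∈ Fil w a) (hN : N ∈ Fil w b) :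
    M * N ∈ Fil w (a + b) := by
  intro i j hij
  rw [Matrix.mul_apply]
  refine Finset.sum_eq_zero fun l _ => ?_
  by_cases h : w i < w l + a
  · rw [hM i l h, zero_mul]
  · rw [hN l j (by omega), mul_zero]

theorem fil_one : (1 : Matrix ι ι K) ∈ Fil w 0 := by
  intro i j hij
  rw [Matrix.one_apply_ne]
  rintro rfl
  omega

theorem comp_add (k : ℤ) (M N : Matrix ι ι K) : comp w k (M + N) = comp w k M + comp w k N := by
  ext i j
  rw [Matrix.add_apply, comp_apply, comp_apply, comp_apply, Matrix.add_apply]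
  split_ifs <;> simp

theorem comp_neg (k : ℤ) (M : Matrix ι ι K) : comp w k (-M) = -comp w k M := by
  ext i j
  rw [Matrix.neg_apply, comp_apply, comp_apply, Matrix.neg_apply]
  split_ifs <;> simp

theorem comp_mul {a b : ℤ} {M N : Matrix ι ι K} (hM : M ∈ Fil w a) (hN : N ∈ Fil w b) :
    comp w (a + b) (M * N) = comp w a M * comp w b N := by
  ext i j
  rw [comp_apply, Matrix.mul_apply, Matrix.mul_apply]
  split_ifs with h
  · refine Finset.sum_congr rfl fun l _ => ?_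
    rw [comp_apply, comp_apply]
    by_cases h1 : w i = w l + a
    · rw [if_pos h1, if_pos (by omega)]
    · rw [if_neg h1, zero_mul]
      rcases lt_or_gt_of_ne h1 with h2 | h2
      · rw [hM i l h2, zero_mul]
      · rw [hN l j (by omega), mul_zero]
  · refine (Finset.sum_eq_zero fun l _ => ?_).symm
    rw [comp_apply, comp_apply]
    by_cases h1 : w i = w l + a
    · rw [if_neg (show ¬ w l = w j + b by omega), mul_zero]
    · rw [if_neg h1, zero_mul]

theorem comp_one : comp w 0 (1 : Matrix ι ι K) = 1 := by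
  ext i j
  rw [comp_apply]
  split_ifs with h
  · rfl
  · rw [Matrix.one_apply_ne]
    rintro rfl
    omega

/-- elements of degree larger than `k` have component zero -/
theorem comp_eq_zero {a b : ℤ} (h : a < b) {M : Matrix ι ι K} (hM : M ∈ Fil w b) : comp w a M = 0 := by
  ext i j
  rw [comp_apply]
  split_ifs with h1
  · exact hM i j (by omega)
  · rfl

theorem fil_succ {k : ℤ} {M : Matrix ι ι K} (hM : M ∈ Fil w k) (h : comp w k M = 0) :
    M ∈ Fil w (k + 1) := by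
  intro i j hij
  by_cases h1 : w i < w j + k
  · exact hM i j h1
  · have h2 := congrFun (congrFun h i) j
    rw [comp_apply, if_pos (by omega)] at h2
    exact h2

/-- the torus -/
def dg (w : ι → ℤ) (a : K) : Matrix ι ι K := Matrix.diagonal fun i => a ^ w i

theorem dg_mul {a b : K} : dg w a * dg w b = dg w (a * b) := by
  rw [dg, dg, dg, Matrix.diagonal_mul_diagonal]
  congr 1
  funext i
  rw [mul_zpow]

theorem dg_one : dg w (1 : K) = 1 := by
  rw [dg]
  simp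

/-- the torus, as units -/
def tor (w : ι → ℤ) (a : Kˣ) : (Matrix ι ι K)ˣ where
  val := dg w (a : K)
  inv := dg w ((a : K)⁻¹)
  val_inv := by rw [dg_mul, mul_inv_cancel₀ a.ne_zero, dg_one]
  inv_val := by rw [dg_mul, inv_mul_cancel₀ a.ne_zero, dg_one]

theorem tor_val (a : Kˣ) : (tor w a : Matrix ι ι K) = dg w (a : K) := rfl

theorem tor_inv_val (a : Kˣ) : ((tor w a)⁻¹ : (Matrix ι ι K)ˣ).val = dg w ((a : K)⁻¹) := rfl

theorem tor_mul (a b : Kˣ) : tor w a * tor w b = tor w (a * b) := by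
  ext1
  rw [Units.val_mul, tor_val, tor_val, tor_val, dg_mul, Units.val_mul]

theorem tor_one : tor w (1 : Kˣ) = 1 := by
  ext1
  rw [tor_val, Units.val_one, dg_one, Units.val_one]

theorem tor_inv (a : Kˣ) : (tor w a)⁻¹ = tor w a⁻¹ := by
  rw [inv_eq_iff_mul_eq_one, tor_mul, mul_inv_cancel, tor_one]

theorem tor_pow (a : Kˣ) (n : ℕ) : tor w a ^ n = tor w (a ^ n) := by
  induction n with
  | zero => rw [pow_zero, pow_zero, tor_one]
  | succ n ih => rw [pow_succ, pow_succ, ih, tor_mul]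

theorem dg_fil (a : K) : dg w a ∈ Fil w 0 := by
  intro i j hij
  rw [dg, Matrix.diagonal_apply_ne]
  rintro rfl
  omega

theorem dg_mul_apply (a : K) (M : Matrix ι ι K) (i j : ι) : (dg w a * M) i j = a ^ w i * M i j := by
  rw [dg, Matrix.diagonal_mul]

theorem mul_dg_apply (a : K) (M : Matrix ι ι K) (i j : ι) : (M * dg w a) i j = M i j * a ^ w j := by
  rw [dg, Matrix.mul_diagonal]

/-- conjugation of a homogeneous matrix by the torus -/
theorem dg_conj {a : K} (ha : a ≠ 0) (k : ℤ) (M : Matrix ι ι K) :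
    dg w a⁻¹ * comp w k M * dg w a = (a ^ k)⁻¹ • comp w k M := by
  ext i j
  rw [mul_dg_apply, dg_mul_apply, Matrix.smul_apply, smul_eq_mul, comp_apply]
  split_ifs with h
  · have h1 : a ^ w i = a ^ w j * a ^ k := by rw [h, zpow_add₀ ha]
    rw [inv_zpow, h1]
    have h2 : a ^ w j ≠ 0 := zpow_ne_zero _ ha
    have h3 : a ^ k ≠ 0 := zpow_ne_zero _ ha
    field_simp
  · ring

/-- block matrices of degree `0` commute with the torus -/
theorem dg_comm (a : K) (M : Matrix ι ι K) : comp w 0 M * dg w a = dg w a * comp w 0 M := by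
  ext i j
  rw [mul_dg_apply, dg_mul_apply, comp_apply]
  split_ifs with h
  · rw [h, add_zero, mul_comm]
  · ring

/-- a Weyl element inverts the torus -/
theorem weyl_dg {a : K} (n : Matrix ι ι K) (hn : ∀ i j, w i ≠ - w j → n i j = 0) :
    dg w a * n = n * dg w a⁻¹ := by
  ext i j
  rw [mul_dg_apply, dg_mul_apply]
  by_cases h : w i = - w j
  · rw [h, zpow_neg, inv_zpow, mul_comm]
  · rw [hn i j h, mul_zero, zero_mul]

/-- the parabolic subgroup -/
def P (w : ι → ℤ) : Subgroup (Matrix ι ι K)ˣ where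
  carrier := {g | g.val ∈ Fil w 0 ∧ (g⁻¹).val ∈ Fil w 0}
  mul_mem' := by
    rintro a b ⟨h1, h2⟩ ⟨h3, h4⟩
    refine ⟨?_, ?_⟩
    · have := fil_mul h1 h3
      rwa [add_zero, ← Units.val_mul] at this
    · have := fil_mul h4 h2
      rwa [add_zero, ← Units.val_mul, ← mul_inv_rev] at this
  one_mem' := by
    refine ⟨fil_one, ?_⟩
    rw [inv_one]
    exact fil_one
  inv_mem' := by
    rintro a ⟨h1, h2⟩
    exact ⟨h2, by rwa [inv_inv]⟩

theorem mem_P {g : (Matrix ι ι K)ˣ} : g ∈ P w ↔ g.val ∈ Fil w 0 ∧ (g⁻¹).val ∈ Fil w 0 := Iff.rfl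

/-- the filtration of the unipotent radical -/
def E (w : ι → ℤ) (k : ℕ) : Subgroup (Matrix ι ι K)ˣ where
  carrier := {g | g.val - 1 ∈ Fil w ((k : ℤ) + 1) ∧ (g⁻¹).val - 1 ∈ Fil w ((k : ℤ) + 1)}
  mul_mem' := by
    have key : ∀ a b : Matrix ι ι K, a - 1 ∈ Fil w ((k : ℤ) + 1) → b - 1 ∈ Fil w ((k : ℤ) + 1) →
        a * b - 1 ∈ Fil w ((k : ℤ) + 1) := by
      intro a b ha hb
      have h1 : a * b - 1 = (a - 1) * (b - 1) + ((a - 1) + (b - 1)) := by noncomm_ring
      rw [h1]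
      exact fil_add (fil_mono (by omega) (fil_mul ha hb)) (fil_add ha hb)
    rintro a b ⟨h1, h2⟩ ⟨h3, h4⟩
    refine ⟨?_, ?_⟩
    · rw [Units.val_mul]
      exact key _ _ h1 h3
    · rw [mul_inv_rev, Units.val_mul]
      exact key _ _ h4 h2
  one_mem' := by
    refine ⟨?_, ?_⟩
    · rw [Units.val_one, sub_self]
      exact fil_zero _
    · rw [inv_one, Units.val_one, sub_self]
      exact fil_zero _
  inv_mem' := by
    rintro a ⟨h1, h2⟩
    exact ⟨h2, by rwa [inv_inv]⟩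

theorem mem_E {k : ℕ} {g : (Matrix ι ι K)ˣ} : g ∈ E w k ↔
    g.val - 1 ∈ Fil w ((k : ℤ) + 1) ∧ (g⁻¹).val - 1 ∈ Fil w ((k : ℤ) + 1) := Iff.rfl

theorem E_mono {k l : ℕ} (h : k ≤ l) : (E w l : Subgroup (Matrix ι ι K)ˣ) ≤ E w k :=
  fun _ hg => ⟨fil_mono (by omega) hg.1, fil_mono (by omega) hg.2⟩

theorem E_le_P (k : ℕ) : (E w k : Subgroup (Matrix ι ι K)ˣ) ≤ P w := by
  intro g hg
  have key : ∀ a : Matrix ι ι K, a - 1 ∈ Fil w ((k : ℤ) + 1) → a ∈ Fil w 0 := by
    intro a ha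
    have h1 : a = (a - 1) + 1 := by rw [sub_add_cancel]
    rw [h1]
    exact fil_add (fil_mono (by omega) ha) fil_one
  exact ⟨key _ hg.1, key _ hg.2⟩

/-- the leading term -/
def gr (w : ι → ℤ) (k : ℕ) (g : (Matrix ι ι K)ˣ) : Matrix ι ι K := comp w ((k : ℤ) + 1) (g.val - 1)

theorem gr_mul {k : ℕ} {a b : (Matrix ι ι K)ˣ} (ha : a ∈ E w k) (hb : b ∈ E w k) :
    gr w k (a * b) = gr w k a + gr w k b := by
  have h1 : (a * b).val - 1 = (a.val - 1) * (b.val - 1) + ((a.val - 1) + (b.val - 1)) := by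
    rw [Units.val_mul]
    noncomm_ring
  unfold gr
  rw [h1, comp_add, comp_add, comp_eq_zero (b := ((k : ℤ) + 1) + ((k : ℤ) + 1)) (by omega)
    (fil_mul ha.1 hb.1), zero_add]

theorem gr_one (k : ℕ) : gr w k (1 : (Matrix ι ι K)ˣ) = 0 := by
  unfold gr
  rw [Units.val_one, sub_self]
  exact comp_eq_zero (b := ((k : ℤ) + 1) + 1) (by omega) (fil_zero _)

theorem gr_inv {k : ℕ} {a : (Matrix ι ι K)ˣ} (ha : a ∈ E w k) : gr w k a⁻¹ = -gr w k a := by
  have h1 := gr_mul ha ((E w k).inv_mem ha)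
  rw [mul_inv_cancel, gr_one] at h1
  exact (neg_eq_of_add_eq_zero_right h1.symm).symm

theorem gr_pow {k : ℕ} {a : (Matrix ι ι K)ˣ} (ha : a ∈ E w k) (n : ℕ) :
    gr w k (a ^ n) = n • gr w k a := by
  induction n with
  | zero => rw [pow_zero, gr_one, zero_smul]
  | succ n ih => rw [pow_succ, gr_mul ((E w k).pow_mem ha n) ha, ih, succ_nsmul]

theorem gr_eq_zero {k : ℕ} {a : (Matrix ι ι K)ˣ} (ha : a ∈ E w k) (h : gr w k a = 0) :
    a ∈ E w (k + 1) := by
  have h2 : gr w k a⁻¹ = 0 := by rw [gr_inv ha, h, neg_zero]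
  have e : (((k + 1 : ℕ) : ℤ) + 1) = (k : ℤ) + 1 + 1 := by
    push_cast
    ring
  rw [mem_E, e]
  exact ⟨fil_succ ha.1 h, fil_succ ha.2 h2⟩

/-- conjugation by an element of `P` with scalar diagonal blocks -/
theorem E_conj {k : ℕ} {f v : (Matrix ι ι K)ˣ} (hf : f ∈ P w) (hv : v ∈ E w k) :
    f⁻¹ * v * f ∈ E w k := by
  have key : ∀ v : (Matrix ι ι K)ˣ, v.val - 1 ∈ Fil w ((k : ℤ) + 1) →
      (f⁻¹ * v * f).val - 1 ∈ Fil w ((k : ℤ) + 1) := by
    intro v hv
    have h1 : (f⁻¹ * v * f).val - 1 = (f⁻¹).val * (v.val - 1) * f.val := by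
      rw [Units.val_mul, Units.val_mul, mul_sub, mul_one, sub_mul, Units.inv_mul]
    rw [h1]
    have h2 := fil_mul (fil_mul hf.2 hv) hf.1
    rwa [zero_add, add_zero] at h2
  refine ⟨key v hv.1, ?_⟩
  have h1 : (f⁻¹ * v * f)⁻¹ = f⁻¹ * v⁻¹ * f := by group
  rw [h1]
  exact key _ hv.2

theorem gr_conj {k : ℕ} {f v : (Matrix ι ι K)ˣ} (hf : f ∈ P w) (hv : v ∈ E w k) {μ : K} (hμ : μ ≠ 0)
    (hfμ : comp w 0 f.val = dg w μ) : gr w k (f⁻¹ * v * f) = (μ ^ ((k : ℤ) + 1))⁻¹ • gr w k v := by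
  have h0 : comp w 0 (f⁻¹).val = dg w μ⁻¹ := by
    have h1 := comp_mul hf.2 hf.1
    rw [Units.inv_mul, add_zero, comp_one, hfμ] at h1
    calc comp w 0 (f⁻¹).val = comp w 0 (f⁻¹).val * (dg w μ * dg w μ⁻¹) := by
          rw [dg_mul, mul_inv_cancel₀ hμ, dg_one, mul_one]
      _ = dg w μ⁻¹ := by rw [← mul_assoc, ← h1, one_mul]
  have h1 : (f⁻¹ * v * f).val - 1 = (f⁻¹).val * (v.val - 1) * f.val := by
    rw [Units.val_mul, Units.val_mul, mul_sub, mul_one, sub_mul, Units.inv_mul]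
  unfold gr
  rw [h1]
  have h2 := comp_mul (fil_mul hf.2 hv.1) hf.1
  rw [comp_mul hf.2 hv.1, zero_add, add_zero] at h2
  rw [h2, h0, hfμ, dg_conj hμ]

/-- far down the filtration is trivial -/
theorem exists_E_bot : ∃ m : ℕ, (E w m : Subgroup (Matrix ι ι K)ˣ) = ⊥ := by
  classical
  obtain ⟨B, hB⟩ : ∃ B : ℤ, ∀ i, w i ≤ B := by
    obtain ⟨B, hB⟩ := (Set.finite_range w).bddAbove
    exact ⟨B, fun i => hB ⟨i, rfl⟩⟩
  obtain ⟨C, hC⟩ : ∃ C : ℤ, ∀ i, C ≤ w i := by
    obtain ⟨C, hC⟩ := (Set.finite_range w).bddBelow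
    exact ⟨C, fun i => hC ⟨i, rfl⟩⟩
  refine ⟨(B - C).toNat, ?_⟩
  rw [eq_bot_iff]
  intro g hg
  rw [Subgroup.mem_bot]
  ext1
  rw [Units.val_one, ← sub_eq_zero]
  ext i j
  have h1 := hB i
  have h2 := hC j
  exact hg.1 i j (by omega)

end BoomRO
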