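import Mathlib

/-! MP_4c7af0_al, groups of rank one (helper88), module RO/B: a finiteness lemma for subgroups of vector spaces over a
number field -/

set_option linter.unusedSectionVars false

namespace BoomRO

variable {K : Type*} [Field K] [NumberField K] {M : Type*} [AddCommGroup M] [Module K M]
  [Module ℚ M] [IsScalarTower ℚ K M] [FiniteDimensional ℚ M]

/-- a multiple of every element of `J` is `(1 - ε)` times an element of `J` -/
theorem ab_div (J : AddSubgroup M) {ε : K} (hε : ε ≠ 1) (hεJ : ∀ x ∈ J, ε • x ∈ J) {x : M}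
    (hx : x ∈ J) : ∃ N : ℕ, 0 < N ∧ ∃ z ∈ J, N • x = (1 - ε) • z := by
  classical
  -- the rational span of `J`
  let W : Submodule ℚ M :=
    { carrier := {v | ∃ N : ℕ, 0 < N ∧ N • v ∈ J}
      add_mem' := by
        rintro a b ⟨m, hm, ha⟩ ⟨n, hn, hb⟩
        refine ⟨m * n, Nat.mul_pos hm hn, ?_⟩
        rw [smul_add, mul_smul, mul_comm m n, mul_smul, smul_comm m n a, smul_comm n m b]
        rw [smul_comm m n b]
        exact J.add_mem (J.nsmul_mem ha n) (by
          rw [smul_comm]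
          exact J.nsmul_mem hb m)
      zero_mem' := ⟨1, Nat.one_pos, by
        rw [smul_zero]
        exact J.zero_mem⟩
      smul_mem' := by
        rintro q a ⟨m, hm, ha⟩
        refine ⟨m * q.den, Nat.mul_pos hm q.den_pos, ?_⟩
        have h1 : (m * q.den) • q • a = q.num • (m • a) := by
          rw [← Nat.cast_smul_eq_nsmul ℚ, ← Int.cast_smul_eq_zsmul ℚ, ← Nat.cast_smul_eq_nsmul ℚ,
            smul_smul, smul_smul]
          congr 1
          push_cast
          rw [mul_assoc, Rat.den_mul_eq_num, mul_comm]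
        rw [h1]
        exact J.zsmul_mem ha _ }
  let f : W →ₗ[ℚ] W :=
    { toFun := fun v => ⟨(1 - ε) • v.1, by
        obtain ⟨m, hm, hv⟩ := v.2
        refine ⟨m, hm, ?_⟩
        rw [smul_comm, sub_smul, one_smul]
        exact J.sub_mem hv (hεJ _ hv)⟩
      map_add' := fun a b => Subtype.ext (smul_add _ _ _)
      map_smul' := fun q a => Subtype.ext (by
        change (1 - ε) • (q • a.1) = q • ((1 - ε) • a.1)
        rw [← algebraMap_smul K q, ← algebraMap_smul K q, smul_smul, smul_smul, mul_comm]) }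
  have hinj : Function.Injective f := by
    intro a b hab
    have h1 : (1 - ε) • a.1 = (1 - ε) • b.1 := congrArg Subtype.val hab
    have h2 : (1 - ε) ≠ 0 := sub_ne_zero.2 (Ne.symm hε)
    exact Subtype.ext ((smul_right_injective M h2) h1)
  obtain ⟨z, hz⟩ := LinearMap.injective_iff_surjective.1 hinj ⟨x, 1, Nat.one_pos, by rwa [one_smul]⟩
  obtain ⟨N, hN, hzN⟩ := z.2
  have h1 : (1 - ε) • z.1 = x := congrArg Subtype.val hz
  refine ⟨N, hN, N • z.1, hzN, ?_⟩
  rw [← h1, smul_comm]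

/-- multiples of a finitely generated group -/
theorem ab_mult (I : AddSubgroup M) (F : Finset M) (h : ∀ x ∈ F, ∃ n : ℕ, 0 < n ∧ n • x ∈ I) :
    ∃ m : ℕ, 0 < m ∧ ∀ x ∈ AddSubgroup.closure (F : Set M), m • x ∈ I := by
  classical
  have h1 : ∃ m : ℕ, 0 < m ∧ ∀ x ∈ F, m • x ∈ I := by
    induction F using Finset.induction_on with
    | empty => exact ⟨1, Nat.one_pos, fun x hx => absurd hx (Finset.notMem_empty x)⟩
    | insert a F _ ih =>
      obtain ⟨m, hm, hm'⟩ := ih fun x hx => h x (Finset.mem_insert_of_mem hx)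
      obtain ⟨n, hn, hn'⟩ := h a (Finset.mem_insert_self a F)
      refine ⟨m * n, Nat.mul_pos hm hn, fun x hx => ?_⟩
      rcases Finset.mem_insert.1 hx with rfl | hx
      · rw [mul_smul]
        exact I.nsmul_mem hn' m
      · rw [mul_comm, mul_smul]
        exact I.nsmul_mem (hm' x hx) n
  obtain ⟨m, hm, hm'⟩ := h1
  refine ⟨m, hm, fun x hx => ?_⟩
  induction hx using AddSubgroup.closure_induction with
  | mem x hx => exact hm' x hx
  | zero =>
    rw [smul_zero]
    exact I.zero_mem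
  | add a b _ _ iha ihb =>
    rw [smul_add]
    exact I.add_mem iha ihb
  | neg a _ ih =>
    rw [smul_neg]
    exact I.neg_mem ih

/-- a finitely generated abelian group modulo multiples is finite -/
theorem ab_finrem {M : Type*} [AddCommGroup M] (J0 : Submodule ℤ M) (hfg : J0.FG) {m : ℕ} (hm : 0 < m) :
    ∃ Φ : Set M, Φ.Finite ∧ ∀ x ∈ J0, ∃ z ∈ J0, ∃ φ ∈ Φ, x = m • z + φ := by
  classical
  have : Module.Finite ℤ J0 := Module.Finite.iff_fg.2 hfg
  let R : Submodule ℤ J0 := LinearMap.range (LinearMap.lsmul ℤ J0 (m : ℤ))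
  have : Finite (J0 ⧸ R) := by
    apply Module.finite_of_fg_torsion
    intro x
    refine ⟨⟨(m : ℤ), ?_⟩, ?_⟩
    · rw [mem_nonZeroDivisors_iff_ne_zero]
      exact_mod_cast hm.ne'
    · obtain ⟨x, rfl⟩ := Submodule.Quotient.mk_surjective R x
      change (m : ℤ) • (Submodule.Quotient.mk x : J0 ⧸ R) = 0
      rw [← Submodule.Quotient.mk_smul, Submodule.Quotient.mk_eq_zero]
      exact ⟨x, rfl⟩
  refine ⟨Set.range fun q : J0 ⧸ R => ((Quotient.out q : J0) : M), Set.finite_range _, fun x hx => ?_⟩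
  have h1 : (Submodule.Quotient.mk (⟨x, hx⟩ : J0) : J0 ⧸ R) =
      Submodule.Quotient.mk (Quotient.out (Submodule.Quotient.mk (⟨x, hx⟩ : J0) : J0 ⧸ R)) :=
    (Quotient.out_eq _).symm
  rw [Submodule.Quotient.eq] at h1
  obtain ⟨z, hz⟩ := h1
  refine ⟨z.1, z.2, _, ⟨Submodule.Quotient.mk (⟨x, hx⟩ : J0), rfl⟩, ?_⟩
  have h2 : (m : ℤ) • z.1 = x - ((Quotient.out (Submodule.Quotient.mk (⟨x, hx⟩ : J0) : J0 ⧸ R) : J0) : M) :=
    congrArg Subtype.val hz
  rw [← natCast_zsmul, h2, sub_add_cancel]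

/-- **the finiteness lemma** -/
theorem ab_fin (J I : AddSubgroup M) (J0 : Submodule ℤ M) (hJ0 : ∀ x ∈ J0, x ∈ J)
    (hfg : J0.FG) {y ε : K} (hy : y ≠ 0) (hε : ε ≠ 1) (hyJ : ∀ x ∈ J, y⁻¹ • x ∈ J)
    (hy0 : ∀ x ∈ J0, y • x ∈ J0) (hJ : ∀ x ∈ J, ∃ l : ℕ, y ^ l • x ∈ J0)
    (hεJ : ∀ x ∈ J, ε • x ∈ J)
    (h1 : ∀ x ∈ J, ∃ n : ℕ, 0 < n ∧ n • (1 - ε) • x ∈ I)
    (h2 : ∀ F : Finset M, (∀ x ∈ F, x ∈ I) → ∀ n0 : ℕ, ∃ n : ℕ, n0 ≤ n ∧ ∀ x ∈ F, (y ^ n)⁻¹ • x ∈ I) :
    ∃ Φ : Set M, Φ.Finite ∧ Φ ⊆ J ∧ ∀ x ∈ J, ∃ d ∈ I, ∃ φ ∈ Φ, x = d + φ := by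
  classical
  -- (1) `J / I` is torsion
  have s1 : ∀ x ∈ J, ∃ n : ℕ, 0 < n ∧ n • x ∈ I := by
    intro x hx
    obtain ⟨N, hN, z, hz, he⟩ := ab_div J hε hεJ hx
    obtain ⟨n, hn, hn'⟩ := h1 z hz
    refine ⟨n * N, Nat.mul_pos hn hN, ?_⟩
    rw [mul_smul, he]
    exact hn'
  -- (2) generators
  obtain ⟨F, hF⟩ := id hfg
  have hFJ0 : ∀ x ∈ F, x ∈ J0 := fun x hx => by
    rw [← hF]
    exact Submodule.subset_span hx
  obtain ⟨m, hm, hmF⟩ := ab_mult I F fun x hx => s1 x (hJ0 x (hFJ0 x hx))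
  have hcl : ∀ x ∈ J0, x ∈ AddSubgroup.closure (F : Set M) := by
    intro x hx
    rw [← hF] at hx
    induction hx using Submodule.span_induction with
    | mem x hx => exact AddSubgroup.subset_closure hx
    | zero => exact AddSubgroup.zero_mem _
    | add a b _ _ iha ihb => exact AddSubgroup.add_mem _ iha ihb
    | smul c a _ ih => exact AddSubgroup.zsmul_mem _ ih c
  have s2 : ∀ x ∈ J0, m • x ∈ I := fun x hx => hmF x (hcl x hx)
  have hyl : ∀ (l : ℕ), ∀ x ∈ J0, y ^ l • x ∈ J0 := by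
    intro l
    induction l with
    | zero => exact fun x hx => by rwa [pow_zero, one_smul]
    | succ l ih =>
      intro x hx
      rw [pow_succ, mul_smul]
      exact ih _ (hy0 x hx)
  have hyl' : ∀ (l : ℕ), ∀ x ∈ J, (y ^ l)⁻¹ • x ∈ J := by
    intro l
    induction l with
    | zero => exact fun x hx => by rwa [pow_zero, inv_one, one_smul]
    | succ l ih =>
      intro x hx
      rw [pow_succ, mul_inv_rev, mul_smul]
      exact hyJ _ (ih x hx)
  -- (3) multiples of all elements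
  have s3 : ∀ x ∈ J, m • x ∈ I := by
    intro x hx
    obtain ⟨l, hl⟩ := hJ x hx
    obtain ⟨n, hn, hn'⟩ := h2 (F.image fun g => m • g) (by
      intro z hz
      obtain ⟨g, hg, rfl⟩ := Finset.mem_image.1 hz
      exact s2 g (hFJ0 g hg)) l
    have key : ∀ z ∈ AddSubgroup.closure (F : Set M), (y ^ n)⁻¹ • m • z ∈ I := by
      intro z hz
      induction hz using AddSubgroup.closure_induction with
      | mem z hz => exact hn' _ (Finset.mem_image.2 ⟨z, hz, rfl⟩)
      | zero =>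
        rw [smul_zero, smul_zero]
        exact I.zero_mem
      | add a b _ _ iha ihb =>
        rw [smul_add, smul_add]
        exact I.add_mem iha ihb
      | neg a _ ih =>
        rw [smul_neg, smul_neg]
        exact I.neg_mem ih
    have h3 : y ^ n • x ∈ J0 := by
      obtain ⟨k, rfl⟩ := Nat.exists_eq_add_of_le hn
      rw [add_comm, pow_add, mul_smul]
      exact hyl k _ hl
    have h4 := key _ (hcl _ h3)
    rwa [← smul_comm m, smul_smul (y ^ n)⁻¹, inv_mul_cancel₀ (pow_ne_zero n hy), one_smul] at h4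
  -- (4) finitely many classes
  obtain ⟨Ψ, hΨ, hΨ'⟩ := ab_finrem J0 hfg hm
  have hfin : Finite (J ⧸ I.addSubgroupOf J) := by
    by_contra hcon
    rw [not_finite_iff_infinite] at hcon
    obtain ⟨T, hT⟩ := Infinite.exists_subset_card_eq (J ⧸ I.addSubgroupOf J) (hΨ.toFinset.card + 1)
    choose l hl using fun q : J ⧸ I.addSubgroupOf J => hJ (Quotient.out q : J).1 (Quotient.out q : J).2
    set L : ℕ := T.sup l with hL
    have hLq : ∀ q ∈ T, y ^ L • (Quotient.out q : J).1 ∈ J0 := by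
      intro q hq
      obtain ⟨k, hk⟩ := Nat.exists_eq_add_of_le (Finset.le_sup (f := l) hq)
      rw [hL, hk, add_comm, pow_add, mul_smul]
      exact hyl k _ (hl q)
    have hch : ∀ q : J ⧸ I.addSubgroupOf J, ∃ z φ : M, q ∈ T → z ∈ J0 ∧ φ ∈ Ψ ∧
        y ^ L • (Quotient.out q : J).1 = m • z + φ := by
      intro q
      by_cases hq : q ∈ T
      · obtain ⟨z, hz, φ, hφ, he⟩ := hΨ' _ (hLq q hq)
        exact ⟨z, φ, fun _ => ⟨hz, hφ, he⟩⟩
      · exact ⟨0, 0, fun h => absurd h hq⟩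
    choose z φ hzφ using hch
    obtain ⟨q, hq, q', hq', hne, he⟩ := Finset.exists_ne_map_eq_of_card_lt_of_maps_to
      (s := T) (t := hΨ.toFinset) (f := φ) (by omega)
      (fun q hq => hΨ.mem_toFinset.2 (hzφ q hq).2.1)
    apply hne
    have e1 := (hzφ q hq).2.2
    have e2 := (hzφ q' hq').2.2
    have e3 : y ^ L • ((Quotient.out q : J).1 - (Quotient.out q' : J).1) = m • (z q - z q') := by
      rw [smul_sub, e1, e2, he, smul_sub]
      abel
    have e4 : (Quotient.out q : J).1 - (Quotient.out q' : J).1 = m • ((y ^ L)⁻¹ • (z q - z q')) := by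
      rw [smul_comm, ← e3, smul_smul, inv_mul_cancel₀ (pow_ne_zero L hy), one_smul]
    have e5 : (Quotient.out q : J).1 - (Quotient.out q' : J).1 ∈ I := by
      rw [e4]
      exact s3 _ (hyl' L _ (J.sub_mem (hJ0 _ (hzφ q hq).1) (hJ0 _ (hzφ q' hq').1)))
    rw [← Quotient.out_eq q, ← Quotient.out_eq q']
    refine (QuotientAddGroup.eq.2 ?_)
    rw [AddSubgroup.mem_addSubgroupOf]
    have e6 : ((-(Quotient.out q : J) + (Quotient.out q' : J) : J) : M) =
        -((Quotient.out q : J).1 - (Quotient.out q' : J).1) := by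
      push_cast
      abel
    rw [e6]
    exact I.neg_mem e5
  refine ⟨Set.range fun q : J ⧸ I.addSubgroupOf J => ((Quotient.out q : J) : M),
    Set.finite_range _, ?_, fun x hx => ?_⟩
  · rintro _ ⟨q, rfl⟩
    exact (Quotient.out q : J).2
  · set q : J ⧸ I.addSubgroupOf J := QuotientAddGroup.mk ⟨x, hx⟩ with hq
    have h3 : (QuotientAddGroup.mk (Quotient.out q : J) : J ⧸ I.addSubgroupOf J) =
        QuotientAddGroup.mk ⟨x, hx⟩ := Quotient.out_eq q
    rw [QuotientAddGroup.eq, AddSubgroup.mem_addSubgroupOf] at h3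
    refine ⟨_, h3, _, ⟨q, rfl⟩, ?_⟩
    push_cast
    abel

end BoomRO
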