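import Pool.Agent.H.MP_4c7af0_al.RO.A
import Pool.Agent.H.MP_4c7af0_al.RO.B
import Pool.Agent.H.MP_4c7af0_al.NF.Inst

/-! MP_4c7af0_al, groups of rank one (helper88), module RO/C: recurrent subgroups contain finite-index subgroups of the
unipotent radicals (at a cusp which is moved to the opposite cusp) -/

set_option linter.unusedSectionVars false

namespace BoomRO

open NumberField

/-- `X` is contained in finitely many cosets of `D` -/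
def FM {Γ : Type*} [Group Γ] (D : Subgroup Γ) (X : Set Γ) : Prop :=
  ∃ Φ : Set Γ, Φ.Finite ∧ ∀ x ∈ X, ∃ d ∈ D, ∃ φ ∈ Φ, x = d * φ

/-- recurrence -/
def Rec {Γ : Type*} [Group Γ] (G D : Subgroup Γ) : Prop :=
  ∀ γ ∈ G, ∀ F : Finset Γ, (∀ x ∈ F, x ∈ D) → ∀ n0 : ℕ, ∃ n : ℕ, n0 ≤ n ∧
    ∀ x ∈ F, (γ ^ n)⁻¹ * x * γ ^ n ∈ D

variable {ι : Type*} [Fintype ι] [DecidableEq ι] {K : Type*} [Field K]

section lead

variable {w : ι → ℤ} (Γ : Subgroup (Matrix ι ι K)ˣ)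

/-- the leading terms of the elements of `Γ` of level `k` -/
def LT (w : ι → ℤ) (Γ : Subgroup (Matrix ι ι K)ˣ) (k : ℕ) : AddSubgroup (Matrix ι ι K) where
  carrier := {X | ∃ g ∈ Γ, g ∈ E w k ∧ gr w k g = X}
  add_mem' := by
    rintro _ _ ⟨a, ha, ha', rfl⟩ ⟨b, hb, hb', rfl⟩
    exact ⟨a * b, Γ.mul_mem ha hb, (E w k).mul_mem ha' hb', gr_mul ha' hb'⟩
  zero_mem' := ⟨1, Γ.one_mem, (E w k).one_mem, gr_one k⟩
  neg_mem' := by
    rintro _ ⟨a, ha, ha', rfl⟩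
    exact ⟨a⁻¹, Γ.inv_mem ha, (E w k).inv_mem ha', gr_inv ha'⟩

theorem mem_LT {k : ℕ} {X : Matrix ι ι K} : X ∈ LT w Γ k ↔ ∃ g ∈ Γ, g ∈ E w k ∧ gr w k g = X :=
  Iff.rfl

variable {Γ}

theorem tor_mem_P (a : Kˣ) : tor w a ∈ P w := ⟨dg_fil _, by
  rw [tor_inv_val]
  exact dg_fil _⟩

theorem comp_tor (a : Kˣ) : comp w 0 (tor w a).val = dg w (a : K) := by
  rw [tor_val]
  ext i j
  rw [comp_apply]
  split_ifs with h
  · rfl
  · rw [dg, Matrix.diagonal_apply_ne]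
    rintro rfl
    omega

/-- the torus acts on the leading terms -/
theorem LT_tor {a : Kˣ} (ha : tor w a ∈ Γ) {k : ℕ} {X : Matrix ι ι K} (hX : X ∈ LT w Γ k) :
    (((a : K) ^ ((k : ℤ) + 1))⁻¹) • X ∈ LT w Γ k := by
  obtain ⟨g, hg, hg', rfl⟩ := hX
  refine ⟨(tor w a)⁻¹ * g * tor w a, Γ.mul_mem (Γ.mul_mem (Γ.inv_mem ha) hg) ha,
    E_conj (tor_mem_P a) hg', ?_⟩
  exact gr_conj (tor_mem_P a) hg' a.ne_zero (comp_tor a)

theorem LT_tor' {a : Kˣ} (ha : tor w a ∈ Γ) {k : ℕ} {X : Matrix ι ι K} (hX : X ∈ LT w Γ k) :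
    ((a : K) ^ ((k : ℤ) + 1)) • X ∈ LT w Γ k := by
  have h1 : tor w a⁻¹ ∈ Γ := by
    rw [← tor_inv]
    exact Γ.inv_mem ha
  have h2 := LT_tor h1 hX
  rwa [Units.val_inv_eq_inv_val, inv_zpow, inv_inv] at h2

end lead

end BoomRO
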