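import Pool.Agent.H.MP_4c7af0_al.RO.C

/-! MP_4c7af0_al, groups of rank one (helper88), module RO/D: the local theorem -/

set_option linter.unusedSectionVars false

namespace BoomRO

open NumberField

variable {ι : Type*} [Fintype ι] [DecidableEq ι] {K : Type*} [Field K]

/-- the matrices with entries in `N⁻¹ O_K` -/
def Lat (ι : Type*) [Fintype ι] [DecidableEq ι] (K : Type*) [Field K] (N : ℕ) :
    Submodule ℤ (Matrix ι ι K) where
  carrier := {X | ∀ i j, ∃ z : 𝓞 K, (N : K) * X i j = z}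
  add_mem' := by
    intro a b ha hb i j
    obtain ⟨z, hz⟩ := ha i j
    obtain ⟨z', hz'⟩ := hb i j
    refine ⟨z + z', ?_⟩
    rw [Matrix.add_apply, mul_add, hz, hz']
    push_cast
    rfl
  zero_mem' := fun i j => ⟨0, by simp⟩
  smul_mem' := by
    intro c a ha i j
    obtain ⟨z, hz⟩ := ha i j
    refine ⟨(c : 𝓞 K) * z, ?_⟩
    rw [Matrix.smul_apply, mul_smul_comm, hz, zsmul_eq_mul]
    push_cast
    rfl

theorem mem_Lat {N : ℕ} {X : Matrix ι ι K} : X ∈ Lat ι K N ↔ ∀ i j, ∃ z : 𝓞 K, (N : K) * X i j = z :=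
  Iff.rfl

theorem lat_fg [NumberField K] {N : ℕ} (hN : 0 < N) : (Lat ι K N).FG := by
  have hN' : (N : K) ≠ 0 := by exact_mod_cast hN.ne'
  let f : Matrix ι ι (𝓞 K) →ₗ[ℤ] Matrix ι ι K :=
    { toFun := fun Z => Matrix.of fun i j => (N : K)⁻¹ * (Z i j : K)
      map_add' := fun a b => by
        ext i j
        simp [mul_add]
      map_smul' := fun c a => by
        ext i j
        simp [mul_left_comm] }
  have h1 : Lat ι K N = LinearMap.range f := by
    ext X
    constructor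
    · intro hX
      choose z hz using hX
      refine ⟨Matrix.of z, ?_⟩
      ext i j
      change (N : K)⁻¹ * (z i j : K) = X i j
      rw [← hz i j, inv_mul_cancel_left₀ hN']
    · rintro ⟨Z, rfl⟩ i j
      refine ⟨Z i j, ?_⟩
      change (N : K) * ((N : K)⁻¹ * (Z i j : K)) = _
      rw [mul_inv_cancel_left₀ hN']
  rw [h1, LinearMap.range_eq_map]
  exact Submodule.FG.map f Module.Finite.fg_top

/-- descending induction on the filtration -/
theorem fm_step {w : ι → ℤ} {Γ D : Subgroup (Matrix ι ι K)ˣ} {k : ℕ}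
    (h1 : ∃ Φ : Set (Matrix ι ι K), Φ.Finite ∧ Φ ⊆ LT w Γ k ∧ ∀ x ∈ LT w Γ k, ∃ d ∈ LT w D k,
      ∃ φ ∈ Φ, x = d + φ) (hDΓ : D ≤ Γ)
    (h2 : FM (D ⊓ E w (k + 1)) ((Γ ⊓ E w (k + 1) : Subgroup (Matrix ι ι K)ˣ) : Set (Matrix ι ι K)ˣ)) :
    FM (D ⊓ E w k) ((Γ ⊓ E w k : Subgroup (Matrix ι ι K)ˣ) : Set (Matrix ι ι K)ˣ) := by
  classical
  obtain ⟨Φ, hΦ, hΦ', h1⟩ := h1
  obtain ⟨Ψ, hΨ, h2⟩ := h2
  have hch : ∀ Z : Matrix ι ι K, ∃ g : (Matrix ι ι K)ˣ, Z ∈ Φ → g ∈ Γ ∧ g ∈ E w k ∧ gr w k g = Z := by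
    intro Z
    by_cases hZ : Z ∈ Φ
    · obtain ⟨g, h3⟩ := hΦ' hZ
      exact ⟨g, fun _ => h3⟩
    · exact ⟨1, fun h => absurd h hZ⟩
  choose t ht using hch
  refine ⟨Set.image2 (fun ψ Z => ψ * t Z) Ψ Φ, hΨ.image2 _ hΦ, ?_⟩
  rintro x ⟨hx, hx'⟩
  obtain ⟨_, ⟨d, hd, hd', rfl⟩, Z, hZ, he⟩ := h1 (gr w k x) ⟨x, hx, hx', rfl⟩
  obtain ⟨t1, t2, t3⟩ := ht Z hZ
  have e1 : d⁻¹ * x * (t Z)⁻¹ ∈ E w k :=
    (E w k).mul_mem ((E w k).mul_mem ((E w k).inv_mem hd') hx') ((E w k).inv_mem t2)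
  have e2 : gr w k (d⁻¹ * x * (t Z)⁻¹) = 0 := by
    rw [gr_mul ((E w k).mul_mem ((E w k).inv_mem hd') hx') ((E w k).inv_mem t2),
      gr_mul ((E w k).inv_mem hd') hx', gr_inv hd', gr_inv t2, he, t3]
    abel
  have e3 : d⁻¹ * x * (t Z)⁻¹ ∈ Γ ⊓ E w (k + 1) :=
    ⟨Γ.mul_mem (Γ.mul_mem (Γ.inv_mem (hDΓ hd)) hx) (Γ.inv_mem t1), gr_eq_zero e1 e2⟩
  obtain ⟨d', hd2, ψ, hψ, he'⟩ := h2 _ e3
  refine ⟨d * d', ⟨D.mul_mem hd hd2.1, (E w k).mul_mem hd' (E_mono (Nat.le_succ k) hd2.2)⟩, _,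
    ⟨ψ, hψ, Z, hZ, rfl⟩, ?_⟩
  have e4 : x = d * (d⁻¹ * x * (t Z)⁻¹) * t Z := by group
  rw [e4, he']
  group

variable [NumberField K] {A : Subring K}

/-- **the local theorem** -/
theorem local_thm (hA : BoomNF.SRing A) {e : K} (he : BoomNF.InfUnit A e) {w : ι → ℤ}
    {Γ D : Subgroup (Matrix ι ι K)ˣ} (hDΓ : D ≤ Γ) (hR : Rec Γ D)
    (ht : ∀ a : Kˣ, (a : K) ∈ A → (a : K)⁻¹ ∈ A → ∃ r : ℕ, 0 < r ∧ tor w (a ^ r) ∈ Γ)
    {N : ℕ} (hN : 0 < N)
    (hΓN : ∀ (k : ℕ) (g : (Matrix ι ι K)ˣ), g ∈ Γ → g ∈ E w k → ∀ i j, (N : K) * gr w k g i j ∈ A)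
    {n0 b : (Matrix ι ι K)ˣ} (hn0 : ∀ i j, w i ≠ - w j → n0.val i j = 0) (hb : b ∈ P w)
    (hδ : n0 * b ∈ D) :
    FM (D ⊓ E w 0) ((Γ ⊓ E w 0 : Subgroup (Matrix ι ι K)ˣ) : Set (Matrix ι ι K)ˣ) := by
  classical
  obtain ⟨y, hy0, hy⟩ := hA.ex
  have hyK : (y : K) ≠ 0 := by exact_mod_cast hy0
  -- the two units
  let yu : Kˣ := Units.mk0 (y : K) hyK
  let eu : Kˣ := Units.mk0 e he.ne
  have hyA : (y : K) ∈ A := hA.int_mem y
  have hyA' : (y : K)⁻¹ ∈ A := (hy _).2 ⟨1, 1, by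
    rw [pow_one, inv_mul_cancel₀ hyK]
    simp⟩
  obtain ⟨ry, hry, hty⟩ := ht yu hyA hyA'
  obtain ⟨re, hre, hte⟩ := ht eu he.mem he.inv_mem
  -- the element with scalar blocks
  obtain ⟨n, hn, hnD⟩ := hR (tor w (eu ^ re))⁻¹ (Γ.inv_mem hte) {n0 * b} (by
    intro x hx
    rw [Finset.mem_singleton.1 hx]
    exact hδ) 1
  have hnD' := hnD _ (Finset.mem_singleton_self _)
  set a : Kˣ := (eu ^ re) ^ n with ha
  have hta : tor w a ∈ Γ := by
    rw [ha, ← tor_pow]
    exact Γ.pow_mem hte n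
  have h1 : (((tor w (eu ^ re))⁻¹ ^ n)⁻¹ * (n0 * b) * (tor w (eu ^ re))⁻¹ ^ n) =
      tor w a * (n0 * b) * tor w a⁻¹ := by
    rw [inv_pow, tor_pow, inv_inv, tor_inv]
  rw [h1] at hnD'
  have hweyl : tor w a * n0 = n0 * tor w a⁻¹ := by
    ext1
    rw [Units.val_mul, Units.val_mul, tor_val, tor_val, weyl_dg _ hn0, Units.val_inv_eq_inv_val]
  set f : (Matrix ι ι K)ˣ := (n0 * b)⁻¹ * (tor w a * (n0 * b) * tor w a⁻¹) with hf
  have hfD : f ∈ D := D.mul_mem (D.inv_mem hδ) hnD'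
  have hf' : f = b⁻¹ * tor w a⁻¹ * b * tor w a⁻¹ := by
    rw [hf, ← mul_assoc (tor w a) n0 b, hweyl]
    group
  have hfP : f ∈ P w := by
    rw [hf']
    exact (P w).mul_mem ((P w).mul_mem ((P w).mul_mem ((P w).inv_mem hb) (tor_mem_P _)) hb)
      (tor_mem_P _)
  set μ : K := ((a : K)⁻¹) * ((a : K)⁻¹) with hμ
  have hμ0 : μ ≠ 0 := mul_ne_zero (inv_ne_zero a.ne_zero) (inv_ne_zero a.ne_zero)
  have hfμ : comp w 0 f.val = dg w μ := by
    have c1 := comp_mul (hb.2) (tor_mem_P (w := w) a⁻¹).1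
    have c2 := comp_mul (w := w) (fil_mul hb.2 (tor_mem_P (w := w) a⁻¹).1) hb.1
    have c3 := comp_mul (w := w) (fil_mul (fil_mul hb.2 (tor_mem_P (w := w) a⁻¹).1) hb.1)
      (tor_mem_P (w := w) a⁻¹).1
    have c4 := comp_mul hb.2 hb.1
    rw [Units.inv_mul] at c4
    simp only [add_zero] at c1 c2 c3 c4
    rw [comp_one] at c4
    rw [hf', Units.val_mul, Units.val_mul, Units.val_mul, c3, c2, c1, comp_tor,
      mul_assoc (comp w 0 (b⁻¹).val), ← dg_comm, ← mul_assoc, ← c4, one_mul, dg_mul,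
      Units.val_inv_eq_inv_val]
  -- descending induction
  obtain ⟨m, hm⟩ := exists_E_bot (w := w) (ι := ι) (K := K)
  have hmain : ∀ j : ℕ, j ≤ m →
      FM (D ⊓ E w (m - j)) ((Γ ⊓ E w (m - j) : Subgroup (Matrix ι ι K)ˣ) : Set (Matrix ι ι K)ˣ) := by
    intro j
    induction j with
    | zero =>
      intro _
      rw [Nat.sub_zero, hm]
      refine ⟨{1}, Set.finite_singleton _, ?_⟩
      rintro x ⟨-, hx⟩
      have hx' : x = 1 := hx
      exact ⟨1, Subgroup.one_mem _, 1, rfl, by rw [hx', mul_one]⟩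
    | succ j ih =>
      intro hj
      set k : ℕ := m - (j + 1) with hk
      have hk' : m - j = k + 1 := by omega
      have ih' := ih (by omega)
      rw [hk'] at ih'
      refine fm_step ?_ hDΓ ih'
      -- the leading terms
      set yy : K := ((y : K) ^ ry) ^ ((k : ℤ) + 1) with hyy
      have hyy' : yy = (y : K) ^ (ry * (k + 1)) := by
        rw [hyy, pow_mul]
        exact_mod_cast rfl
      have hyy0 : yy ≠ 0 := by
        rw [hyy']
        exact pow_ne_zero _ hyK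
      set ε : K := (μ ^ ((k : ℤ) + 1))⁻¹ with hε
      have hyuv : ((yu ^ ry : Kˣ) : K) = (y : K) ^ ry := by
        rw [Units.val_pow_eq_pow_val]
        rfl
      have hJ1 : ∀ x ∈ LT w Γ k, yy⁻¹ • x ∈ LT w Γ k := by
        intro x hx
        have := LT_tor hty hx
        rwa [hyuv] at this
      have hJ2 : ∀ x ∈ LT w Γ k, yy • x ∈ LT w Γ k := by
        intro x hx
        have := LT_tor' hty hx
        rwa [hyuv] at this
      have hJ3 : ∀ x ∈ LT w Γ k, ε • x ∈ LT w Γ k := by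
        intro x hx
        have e1 : tor w (a⁻¹ * a⁻¹) ∈ Γ := by
          rw [← tor_mul, ← tor_inv]
          exact Γ.mul_mem (Γ.inv_mem hta) (Γ.inv_mem hta)
        have e2 := LT_tor e1 hx
        rw [Units.val_mul, Units.val_inv_eq_inv_val] at e2
        exact e2
      have hε1 : ε ≠ 1 := by
        intro hcon
        rw [hε, inv_eq_one, hμ] at hcon
        have e1 : (a : K) = e ^ (re * n) := by
          rw [ha, ← pow_mul, Units.val_pow_eq_pow_val]
          rfl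
        have e2 : ((a : K)⁻¹ * (a : K)⁻¹) ^ ((k : ℤ) + 1) = (e ^ (re * n * 2 * (k + 1)))⁻¹ := by
          have e3 : ((k : ℤ) + 1) = ((k + 1 : ℕ) : ℤ) := by push_cast; ring
          rw [e3, zpow_natCast, e1, ← mul_inv, inv_pow, ← pow_add, ← pow_mul]
          congr 2
          ring
        rw [e2, inv_eq_one] at hcon
        exact he.pow_ne _ (by positivity) hcon
      set J0 : Submodule ℤ (Matrix ι ι K) := AddSubgroup.toIntSubmodule (LT w Γ k) ⊓ Lat ι K N with hJ0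
      have hJ0J : ∀ x ∈ J0, x ∈ LT w Γ k := fun x hx => hx.1
      have hLy : ∀ (c : ℕ), ∀ x ∈ Lat ι K N, ((y : K) ^ c) • x ∈ Lat ι K N := by
        intro c x hx i j
        obtain ⟨z, hz⟩ := hx i j
        refine ⟨y ^ c * z, ?_⟩
        rw [Matrix.smul_apply, smul_eq_mul, mul_left_comm, hz]
        push_cast
        rfl
      refine ab_fin (K := K) (LT w Γ k) (LT w D k) J0 hJ0J ?_ (y := yy) (ε := ε) hyy0 hε1 hJ1 ?_ ?_ hJ3
        ?_ ?_
      · exact Submodule.FG.of_le (lat_fg hN) inf_le_right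
      · intro x hx
        refine ⟨hJ2 x hx.1, ?_⟩
        rw [hyy']
        exact hLy _ _ hx.2
      · -- denominators
        intro x hx
        obtain ⟨g, hg, hg', rfl⟩ := id hx
        choose l z hz using fun i j => (hy _).1 (hΓN k g hg hg' i j)
        set L : ℕ := Finset.univ.sup fun p : ι × ι => l p.1 p.2 with hL
        refine ⟨L, ?_, ?_⟩
        · have : ∀ (c : ℕ), yy ^ c • gr w k g ∈ LT w Γ k := by
            intro c
            induction c with
            | zero => rwa [pow_zero, one_smul]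
            | succ c ih2 =>
              rw [pow_succ', mul_smul]
              exact hJ2 _ ih2
          exact this L
        · intro i j
          have hl : l i j ≤ ry * (k + 1) * L := by
            have e1 : l i j ≤ L := Finset.le_sup (f := fun p : ι × ι => l p.1 p.2) (Finset.mem_univ (i, j))
            have e2 : 1 ≤ ry * (k + 1) := Nat.mul_pos hry (Nat.succ_pos k)
            calc l i j ≤ L := e1
              _ = 1 * L := (one_mul L).symm
              _ ≤ ry * (k + 1) * L := Nat.mul_le_mul_right L e2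
          obtain ⟨c, hc⟩ := Nat.exists_eq_add_of_le hl
          refine ⟨y ^ c * z i j, ?_⟩
          have e9 : (N : K) * gr w k g i j * (y : K) ^ l i j = (z i j : K) := hz i j
          have e10 : ((y ^ c * z i j : 𝓞 K) : K) = (y : K) ^ c * (z i j : K) := by
            push_cast
            rfl
          rw [e10, ← e9, Matrix.smul_apply, smul_eq_mul, hyy', ← pow_mul, hc, pow_add]
          ring
      · -- recurrence for unipotent elements
        rintro _ ⟨g, hg, hg', rfl⟩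
        obtain ⟨q, hq, hqD⟩ := hR g hg {f} (by
          intro x hx
          rw [Finset.mem_singleton.1 hx]
          exact hfD) 1
        have hqD' := hqD f (Finset.mem_singleton_self f)
        refine ⟨q, hq, f⁻¹ * ((g ^ q)⁻¹ * f * g ^ q), D.mul_mem (D.inv_mem hfD) hqD', ?_, ?_⟩
        · have e1 : f⁻¹ * ((g ^ q)⁻¹ * f * g ^ q) = (f⁻¹ * (g ^ q)⁻¹ * f) * g ^ q := by group
          rw [e1]
          exact (E w k).mul_mem (E_conj hfP ((E w k).inv_mem ((E w k).pow_mem hg' q)))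
            ((E w k).pow_mem hg' q)
        · have e1 : f⁻¹ * ((g ^ q)⁻¹ * f * g ^ q) = (f⁻¹ * (g ^ q)⁻¹ * f) * g ^ q := by group
          rw [e1, gr_mul (E_conj hfP ((E w k).inv_mem ((E w k).pow_mem hg' q)))
            ((E w k).pow_mem hg' q), gr_conj hfP ((E w k).inv_mem ((E w k).pow_mem hg' q)) hμ0 hfμ,
            gr_inv ((E w k).pow_mem hg' q), gr_pow hg', ← hε, sub_smul, one_smul, smul_sub, smul_neg,
            smul_comm]
          abel
      · -- recurrence for the torus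
        intro F hF q0
        have hch : ∀ x : Matrix ι ι K, ∃ g : (Matrix ι ι K)ˣ, x ∈ F → g ∈ D ∧ g ∈ E w k ∧ gr w k g = x := by
          intro x
          by_cases hx : x ∈ F
          · obtain ⟨g, h3⟩ := hF x hx
            exact ⟨g, fun _ => h3⟩
          · exact ⟨1, fun h => absurd h hx⟩
        choose g hg using hch
        obtain ⟨q, hq, hqD⟩ := hR (tor w (yu ^ ry)) hty (F.image g) (by
          intro x hx
          obtain ⟨z, hz, rfl⟩ := Finset.mem_image.1 hx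
          exact (hg z hz).1) q0
        refine ⟨q, hq, fun x hx => ?_⟩
        obtain ⟨g1, g2, g3⟩ := hg x hx
        have e1 := hqD (g x) (Finset.mem_image.2 ⟨x, hx, rfl⟩)
        rw [tor_pow] at e1
        refine ⟨_, e1, E_conj (tor_mem_P _) g2, ?_⟩
        rw [gr_conj (tor_mem_P _) g2 (Units.ne_zero _) (comp_tor _), g3]
        congr 2
        have e2 : ∀ (u : K) (z : ℤ), (u ^ q) ^ z = (u ^ z) ^ q := by
          intro u z
          calc (u ^ q) ^ z = u ^ ((q : ℤ) * z) := by rw [zpow_mul, zpow_natCast]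
            _ = (u ^ z) ^ q := by rw [mul_comm, zpow_mul, zpow_natCast]
        rw [Units.val_pow_eq_pow_val, hyuv, hyy, e2]
  have h2 := hmain m le_rfl
  rwa [Nat.sub_self] at h2

end BoomRO
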