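import Pool.Agent.H.MP_4c7af0_al.RO.D
import Pool.Agent.H.MP_4c7af0_al.Final

/-! MP_4c7af0_al, groups of rank one (helper88), module RO/F: conjugation, commensurability, boomerang subgroups -/

set_option linter.unusedSectionVars false

namespace BoomRO

open NumberField

section gen

variable {Γ : Type*} [Group Γ]

/-- a subgroup with finitely many cosets has finite index -/
theorem FM.relIndex {A B : Subgroup Γ} (h : FM A (B : Set Γ)) : A.relIndex B ≠ 0 := by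
  obtain ⟨Φ, hΦ, h⟩ := h
  have h1 : ∀ q : B ⧸ A.subgroupOf B, ∃ φ : Φ, ∃ b ∈ A, ((q.out : B) : Γ)⁻¹ = b * φ := by
    intro q
    obtain ⟨b, hb, φ, hφ, e⟩ := h _ (B.inv_mem (q.out : B).2)
    exact ⟨⟨φ, hφ⟩, b, hb, e⟩
  choose f b hb e using h1
  have hinj : Function.Injective f := by
    intro p q hpq
    have h2 : ((p.out : B) : Γ)⁻¹ * ((q.out : B) : Γ) ∈ A := by
      have e1 := e p
      have e2 := e q
      rw [hpq] at e1
      have h3 : ((p.out : B) : Γ)⁻¹ * ((q.out : B) : Γ) =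
          (((p.out : B) : Γ)⁻¹) * (((q.out : B) : Γ)⁻¹)⁻¹ := by group
      rw [h3, e1, e2]
      have h4 : b p * (f q : Γ) * (b q * (f q : Γ))⁻¹ = b p * (b q)⁻¹ := by group
      rw [h4]
      exact A.mul_mem (hb p) (A.inv_mem (hb q))
    rw [← QuotientGroup.out_eq' p, ← QuotientGroup.out_eq' q, QuotientGroup.eq]
    exact h2
  have : Finite Φ := hΦ
  have h2 : Finite (B ⧸ A.subgroupOf B) := Finite.of_injective f hinj
  exact Subgroup.index_ne_zero_of_finite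

/-- conjugate subgroup `g D g⁻¹` -/
def cj (g : Γ) (D : Subgroup Γ) : Subgroup Γ := D.map (MulAut.conj g).toMonoidHom

theorem mem_cj {g x : Γ} {D : Subgroup Γ} : x ∈ cj g D ↔ g⁻¹ * x * g ∈ D := by
  unfold cj
  rw [Subgroup.mem_map]
  constructor
  · rintro ⟨y, hy, rfl⟩
    have : g⁻¹ * ((MulAut.conj g).toMonoidHom y) * g = y := by
      change g⁻¹ * (g * y * g⁻¹) * g = y
      group
    rwa [this]
  · intro h
    refine ⟨_, h, ?_⟩
    change g * (g⁻¹ * x * g) * g⁻¹ = x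
    group

theorem Rec.conj {G D : Subgroup Γ} (h : Rec G D) (g : Γ) : Rec (cj g G) (cj g D) := by
  classical
  intro γ hγ F hF n0
  rw [mem_cj] at hγ
  obtain ⟨n, hn, hn'⟩ := h _ hγ (F.image fun x => g⁻¹ * x * g) (by
    intro x hx
    obtain ⟨z, hz, rfl⟩ := Finset.mem_image.1 hx
    exact mem_cj.1 (hF z hz)) n0
  refine ⟨n, hn, fun x hx => ?_⟩
  have h1 := hn' _ (Finset.mem_image.2 ⟨x, hx, rfl⟩)
  rw [mem_cj]
  have h2 : (g⁻¹ * γ * g) ^ n = g⁻¹ * γ ^ n * g := by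
    have := conj_pow (i := n) (a := g⁻¹) (b := γ)
    rwa [inv_inv] at this
  rw [h2] at h1
  have h3 : g⁻¹ * ((γ ^ n)⁻¹ * x * γ ^ n) * g =
      (g⁻¹ * γ ^ n * g)⁻¹ * (g⁻¹ * x * g) * (g⁻¹ * γ ^ n * g) := by group
  rw [h3]
  exact h1

/-- recurrence from the boomerang property -/
theorem rec_of_boom {Γ' : Type*} [Group Γ'] {D : Subgroup Γ} (hD : Boom4c.IsBoomerang D) (H : Subgroup Γ)
    (φ : H →* Γ') : Rec φ.range ((D.subgroupOf H).map φ) := by
  classical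
  rintro _ ⟨γ, rfl⟩ F hF n0
  have hch : ∀ x : Γ', ∃ z : H, x ∈ F → (z : Γ) ∈ D ∧ φ z = x := by
    intro x
    by_cases hx : x ∈ F
    · obtain ⟨z, hz, rfl⟩ := hF x hx
      exact ⟨z, fun _ => ⟨hz, rfl⟩⟩
    · exact ⟨1, fun h => absurd h hx⟩
  choose z hz using hch
  obtain ⟨n, hn, -, ht⟩ := hD (γ : Γ)
  rw [tendsto_pi_nhds] at ht
  have h1 : ∀ᶠ i in Filter.atTop, ∀ x ∈ F,
      Boom4c.ind (D.map (MulAut.conj ((γ : Γ) ^ n i)).toMonoidHom) (z x : Γ) = Boom4c.ind D (z x : Γ) := by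
    rw [Filter.eventually_all_finset]
    intro x _
    have h2 := ht (z x : Γ)
    rwa [nhds_discrete, Filter.tendsto_pure] at h2
  obtain ⟨i, hi, hi'⟩ := (h1.and (Filter.eventually_ge_atTop n0)).exists
  refine ⟨n i, hi'.trans (hn.id_le i), fun x hx => ?_⟩
  obtain ⟨h3, h4⟩ := hz x hx
  have h5 := hi x hx
  unfold Boom4c.ind at h5
  rw [decide_eq_decide] at h5
  have h6 := h5.2 h3
  obtain ⟨d, hd, hd'⟩ := h6
  have hd'' : (γ : Γ) ^ n i * d * ((γ : Γ) ^ n i)⁻¹ = z x := hd'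
  have h7 : (((γ ^ n i)⁻¹ * z x * γ ^ n i : H) : Γ) = d := by
    push_cast
    rw [← hd'']
    group
  refine ⟨(γ ^ n i)⁻¹ * z x * γ ^ n i, ?_, ?_⟩
  · change (((γ ^ n i)⁻¹ * z x * γ ^ n i : H) : Γ) ∈ D
    rw [h7]
    exact hd
  · rw [map_mul, map_mul, map_inv, map_pow, h4]

end gen

variable {ι : Type*} [Fintype ι] [DecidableEq ι] {K : Type*} [Field K]

/-- the invertible matrices over `A` -/
def GLA (ι : Type*) [Fintype ι] [DecidableEq ι] (A : Subring K) : Subgroup (Matrix ι ι K)ˣ where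
  carrier := {g | (∀ i j, g.val i j ∈ A) ∧ ∀ i j, (g⁻¹).val i j ∈ A}
  mul_mem' := by
    have key : ∀ a b : Matrix ι ι K, (∀ i j, a i j ∈ A) → (∀ i j, b i j ∈ A) → ∀ i j, (a * b) i j ∈ A := by
      intro a b ha hb i j
      rw [Matrix.mul_apply]
      exact A.sum_mem fun l _ => A.mul_mem (ha i l) (hb l j)
    rintro a b ⟨h1, h2⟩ ⟨h3, h4⟩
    refine ⟨?_, ?_⟩
    · rw [Units.val_mul]
      exact key _ _ h1 h3
    · rw [mul_inv_rev, Units.val_mul]
      exact key _ _ h4 h2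
  one_mem' := by
    have key : ∀ i j, (1 : Matrix ι ι K) i j ∈ A := by
      intro i j
      rw [Matrix.one_apply]
      split_ifs
      · exact A.one_mem
      · exact A.zero_mem
    refine ⟨key, ?_⟩
    rw [inv_one]
    exact key
  inv_mem' := by
    rintro a ⟨h1, h2⟩
    exact ⟨h2, by rwa [inv_inv]⟩

variable [NumberField K] {A : Subring K}

/-- common denominators -/
theorem den_fin (hA : BoomNF.SRing A) {κ : Type*} [Finite κ] (x : κ → K) :
    ∃ N : ℕ, 0 < N ∧ ∀ k, (N : K) * x k ∈ A := by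
  classical
  have := Fintype.ofFinite κ
  choose n hn h using fun k => hA.den (x k)
  refine ⟨∏ k, n k, Finset.prod_pos fun k _ => hn k, fun k => ?_⟩
  rw [← Finset.mul_prod_erase Finset.univ n (Finset.mem_univ k), Nat.cast_mul,
    mul_comm ((n k : ℕ) : K), mul_assoc]
  exact A.mul_mem (natCast_mem A _) (h k)

/-- torus elements are integral up to powers, in every conjugate -/
theorem tor_conj (hA : BoomNF.SRing A) (w : ι → ℤ) (g : (Matrix ι ι K)ˣ) (a : Kˣ) (ha : (a : K) ∈ A)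
    (ha' : (a : K)⁻¹ ∈ A) : ∃ r : ℕ, 0 < r ∧ g * tor w (a ^ r) * g⁻¹ ∈ GLA ι A := by
  classical
  obtain ⟨N, hN, hN'⟩ := den_fin hA fun p : ι × ι × ι => g.val p.1 p.2.1 * (g⁻¹).val p.2.1 p.2.2
  have hN0 : (N : K) ≠ 0 := by exact_mod_cast hN.ne'
  obtain ⟨r, hr, hr'⟩ := hA.unit_pow a.ne_zero ha ha' (natCast_mem A N) hN0
  -- powers of `c = a ^ r` are congruent to one
  have hinv : (((a : K) ^ r)⁻¹ - 1) / (N : K) ∈ A := by
    have h1 : (((a : K) ^ r)⁻¹ - 1) / (N : K) = -((a : K)⁻¹ ^ r) * (((a : K) ^ r - 1) / N) := by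
      have := pow_ne_zero r a.ne_zero
      rw [inv_pow]
      field_simp
      ring
    rw [h1]
    exact A.mul_mem (A.neg_mem (A.pow_mem ha' r)) hr'
  have hpow : ∀ c : K, c ∈ A → (c - 1) / (N : K) ∈ A → ∀ m : ℕ, (c ^ m - 1) / (N : K) ∈ A := by
    intro c hc hc' m
    induction m with
    | zero =>
      rw [pow_zero, sub_self, zero_div]
      exact A.zero_mem
    | succ m ih =>
      have h1 : (c ^ (m + 1) - 1) / (N : K) = c * ((c ^ m - 1) / (N : K)) + (c - 1) / (N : K) := by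
        rw [pow_succ]
        ring
      rw [h1]
      exact A.add_mem (A.mul_mem hc ih) hc'
  have hz : ∀ z : ℤ, (((a : K) ^ r) ^ z - 1) / (N : K) ∈ A := by
    intro z
    obtain ⟨m, rfl | rfl⟩ := z.eq_nat_or_neg
    · rw [zpow_natCast]
      exact hpow _ (A.pow_mem ha r) hr' m
    · rw [zpow_neg, zpow_natCast, ← inv_pow]
      refine hpow _ ?_ hinv m
      rw [← inv_pow]
      exact A.pow_mem ha' r
  have key : ∀ z : ℤ, ∀ i j, (g.val * dg (fun i => z * w i) ((a : K) ^ r) * (g⁻¹).val) i j ∈ A := by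
    intro z i j
    have h1 : (g.val * dg (fun i => z * w i) ((a : K) ^ r) * (g⁻¹).val) i j =
        (1 : Matrix ι ι K) i j + ∑ l, ((((a : K) ^ r) ^ (z * w l) - 1) / (N : K)) *
          ((N : K) * (g.val i l * (g⁻¹).val l j)) := by
      have h2 : (1 : Matrix ι ι K) i j = ∑ l, g.val i l * (g⁻¹).val l j := by
        rw [← Matrix.mul_apply, Units.mul_inv]
      rw [h2, ← Finset.sum_add_distrib, Matrix.mul_apply]
      refine Finset.sum_congr rfl fun l _ => ?_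
      rw [mul_dg_apply]
      field_simp
      ring
    rw [h1]
    refine A.add_mem ?_ (A.sum_mem fun l _ => A.mul_mem (hz _) (hN' (i, l, j)))
    rw [Matrix.one_apply]
    split_ifs
    · exact A.one_mem
    · exact A.zero_mem
  refine ⟨r, hr, ?_, ?_⟩
  · intro i j
    have h1 := key 1 i j
    have h2 : (g * tor w (a ^ r) * g⁻¹).val = g.val * dg (fun i => 1 * w i) ((a : K) ^ r) * (g⁻¹).val := by
      rw [Units.val_mul, Units.val_mul, tor_val, Units.val_pow_eq_pow_val]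
      simp only [one_mul]
    rw [h2]
    exact h1
  · intro i j
    have h1 := key (-1) i j
    have h2 : ((g * tor w (a ^ r) * g⁻¹)⁻¹).val =
        g.val * dg (fun i => -1 * w i) ((a : K) ^ r) * (g⁻¹).val := by
      have h3 : (g * tor w (a ^ r) * g⁻¹)⁻¹ = g * (tor w (a ^ r))⁻¹ * g⁻¹ := by group
      rw [h3, Units.val_mul, Units.val_mul, tor_inv_val, Units.val_pow_eq_pow_val]
      congr 2
      unfold dg
      congr 1
      funext l
      change (((a : K) ^ r)⁻¹) ^ w l = ((a : K) ^ r) ^ (-1 * w l)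
      rw [inv_zpow, neg_one_mul, zpow_neg]
    rw [h2]
    exact h1

/-- **the local theorem, at the cusp `g`** -/
theorem local_conj (hA : BoomNF.SRing A) {e : K} (he : BoomNF.InfUnit A e) {w : ι → ℤ}
    {G Γ D : Subgroup (Matrix ι ι K)ˣ} (hΓG : Γ ≤ G) (hT : ∀ a : Kˣ, tor w a ∈ G)
    {n0 : (Matrix ι ι K)ˣ} (hn0 : ∀ i j, w i ≠ - w j → n0.val i j = 0)
    (hB : ∀ g ∈ G, g ∈ P w ∨ ∃ a b, a ∈ G ∧ b ∈ G ∧ a ∈ P w ∧ b ∈ P w ∧ g = a * n0 * b)
    (h1 : (G ⊓ GLA ι A).relIndex Γ ≠ 0) (h2 : Γ.relIndex (G ⊓ GLA ι A) ≠ 0)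
    (hDΓ : D ≤ Γ) (hR : Rec Γ D) {g δ : (Matrix ι ι K)ˣ} (hg : g ∈ G) (hδ : δ ∈ D)
    (hgδ : g⁻¹ * δ * g ∉ P w) :
    FM (D ⊓ cj g (E w 0)) ((Γ ⊓ cj g (E w 0) : Subgroup (Matrix ι ι K)ˣ) : Set (Matrix ι ι K)ˣ) := by
  classical
  obtain ⟨a, b, ha, hb, haP, hbP, hab⟩ := (hB _ (G.mul_mem (G.mul_mem (G.inv_mem hg) (hΓG (hDΓ hδ)))
    hg)).resolve_left hgδ
  set g' : (Matrix ι ι K)ˣ := g * a with hg'
  have hg'G : g' ∈ G := G.mul_mem hg ha
  -- conjugated groups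
  have hmem : ∀ (B : Subgroup (Matrix ι ι K)ˣ) (x : (Matrix ι ι K)ˣ), x ∈ cj g'⁻¹ B ↔ g' * x * g'⁻¹ ∈ B := by
    intro B x
    rw [mem_cj, inv_inv]
  have hloc : FM (cj g'⁻¹ D ⊓ E w 0)
      ((cj g'⁻¹ Γ ⊓ E w 0 : Subgroup (Matrix ι ι K)ˣ) : Set (Matrix ι ι K)ˣ) := by
    obtain ⟨N, hN, hN'⟩ := den_fin hA fun p : ι × ι × ι × ι =>
      (g'⁻¹).val p.1 p.2.1 * g'.val p.2.2.1 p.2.2.2
    set q : ℕ := ((G ⊓ GLA ι A).relIndex Γ).factorial with hq
    have hq0 : 0 < q := Nat.factorial_pos _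
    refine local_thm hA he (w := w) (Γ := cj g'⁻¹ Γ) (D := cj g'⁻¹ D)
      (fun x hx => ?_) (hR.conj _) ?_ (N := N * q) (Nat.mul_pos hN hq0) ?_ hn0 (b := b * a) ?_ ?_
    · rw [hmem] at hx ⊢
      exact hDΓ hx
    · -- the torus
      intro c hc hc'
      obtain ⟨r, hr, hr'⟩ := tor_conj hA w g' c hc hc'
      have h3 : g' * tor w (c ^ r) * g'⁻¹ ∈ G ⊓ GLA ι A :=
        ⟨G.mul_mem (G.mul_mem hg'G (hT _)) (G.inv_mem hg'G), hr'⟩
      obtain ⟨s, hs, -, hs'⟩ := Subgroup.exists_pow_mem_of_relIndex_ne_zero h2 h3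
      refine ⟨r * s, Nat.mul_pos hr hs, ?_⟩
      rw [hmem, pow_mul, ← tor_pow (c ^ r) s]
      have h4 := hs'.1
      rwa [conj_pow] at h4
    · -- denominators
      intro k x hx hxE i j
      rw [hmem] at hx
      have h3 : (g' * x * g'⁻¹) ^ q ∈ (G ⊓ GLA ι A) ⊓ Γ :=
        Subgroup.pow_mem_of_relIndex_ne_zero_of_dvd h1 hx fun m hm hm' =>
          Nat.dvd_factorial hm hm'
      have h4 : ∀ i j, ((g' * x * g'⁻¹) ^ q).val i j ∈ A := h3.1.2.1
      have h5 : (x ^ q).val i j = ∑ l, ∑ p, ((g'⁻¹).val i p * ((g' * x * g'⁻¹) ^ q).val p l) * g'.val l j := by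
        have h6 : x ^ q = g'⁻¹ * (g' * x * g'⁻¹) ^ q * g' := by
          rw [conj_pow]
          group
        rw [h6, Units.val_mul, Units.val_mul, Matrix.mul_apply]
        refine Finset.sum_congr rfl fun l _ => ?_
        rw [Matrix.mul_apply, Finset.sum_mul]
      have h7 : (N : K) * (x ^ q).val i j ∈ A := by
        rw [h5, Finset.mul_sum]
        refine A.sum_mem fun l _ => ?_
        rw [Finset.mul_sum]
        refine A.sum_mem fun p _ => ?_
        have h8 : (N : K) * ((g'⁻¹).val i p * ((g' * x * g'⁻¹) ^ q).val p l * g'.val l j) =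
            ((g' * x * g'⁻¹) ^ q).val p l * ((N : K) * ((g'⁻¹).val i p * g'.val l j)) := by ring
        rw [h8]
        exact A.mul_mem (h4 p l) (hN' (i, p, l, j))
      have h9 : ((N * q : ℕ) : K) * gr w k x i j = (N : K) * gr w k (x ^ q) i j := by
        rw [gr_pow hxE, Matrix.smul_apply, nsmul_eq_mul]
        push_cast
        ring
      rw [h9]
      unfold gr
      rw [comp_apply]
      split_ifs with h10
      · have hij : i ≠ j := by
          rintro rfl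
          omega
        rw [Matrix.sub_apply, Matrix.one_apply_ne hij, sub_zero]
        exact h7
      · rw [mul_zero]
        exact A.zero_mem
    · exact (P w).mul_mem hbP haP
    · rw [hmem]
      have h3 : g' * (n0 * (b * a)) * g'⁻¹ = δ := by
        have h4 : g' * (n0 * (b * a)) * g'⁻¹ = g * (a * n0 * b) * g⁻¹ := by
          rw [hg']
          group
        rw [h4, ← hab]
        group
      rw [h3]
      exact hδ
  obtain ⟨Φ, hΦ, hΦ'⟩ := hloc
  -- `a` normalises the unipotent radical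
  have hEa : ∀ x : (Matrix ι ι K)ˣ, g⁻¹ * x * g ∈ E w 0 → g'⁻¹ * x * g' ∈ E w 0 := by
    intro x hx
    have h3 : g'⁻¹ * x * g' = a⁻¹ * (g⁻¹ * x * g) * a := by
      rw [hg']
      group
    rw [h3]
    exact E_conj haP hx
  have hEa' : ∀ x : (Matrix ι ι K)ˣ, g'⁻¹ * x * g' ∈ E w 0 → g⁻¹ * x * g ∈ E w 0 := by
    intro x hx
    have h3 : g⁻¹ * x * g = (a⁻¹)⁻¹ * (g'⁻¹ * x * g') * a⁻¹ := by
      rw [hg']
      group
    rw [h3]
    exact E_conj ((P w).inv_mem haP) hx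
  refine ⟨(fun x => g' * x * g'⁻¹) '' Φ, hΦ.image _, ?_⟩
  rintro x ⟨hx, hx'⟩
  have hx2 := mem_cj.1 hx'
  obtain ⟨d, hd, φ, hφ, he'⟩ := hΦ' (g'⁻¹ * x * g') ⟨(hmem _ _).2 (by
    have h3 : g' * (g'⁻¹ * x * g') * g'⁻¹ = x := by group
    rwa [h3]), hEa x hx2⟩
  refine ⟨g' * d * g'⁻¹, ⟨(hmem _ _).1 hd.1, mem_cj.2 (hEa' _ ?_)⟩, _, ⟨φ, hφ, rfl⟩, ?_⟩
  · have h3 : g'⁻¹ * (g' * d * g'⁻¹) * g' = d := by group
    rw [h3]
    exact hd.2
  · have h3 : x = g' * (g'⁻¹ * x * g') * g'⁻¹ := by group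
    rw [h3, he']
    group

end BoomRO
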