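import Pool.Agent.H.MP_4c7af0_al.RO.F

/-! MP_4c7af0_al, groups of rank one (helper88), module RO/G: the dichotomy -/

set_option linter.unusedSectionVars false

namespace BoomRO

open NumberField

variable {ι : Type*} [Fintype ι] [DecidableEq ι] {K : Type*} [Field K]

section weyl

variable [CharZero K] {w : ι → ℤ}

/-- the inverse of a Weyl element -/
theorem weyl_inv {n0 : (Matrix ι ι K)ˣ} (hn0 : ∀ i j, w i ≠ - w j → n0.val i j = 0) :
    ∀ i j, w i ≠ - w j → (n0⁻¹).val i j = 0 := by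
  intro i j hij
  have h1 : dg w (2 : K) * n0.val = n0.val * dg w ((2 : K)⁻¹) := weyl_dg _ hn0
  have h2 : (n0⁻¹).val * dg w (2 : K) = dg w ((2 : K)⁻¹) * (n0⁻¹).val := by
    calc (n0⁻¹).val * dg w (2 : K) = (n0⁻¹).val * (dg w (2 : K) * n0.val) * (n0⁻¹).val := by
          rw [mul_assoc, mul_assoc, Units.mul_inv, mul_one]
      _ = dg w ((2 : K)⁻¹) * (n0⁻¹).val := by
          rw [h1, ← mul_assoc, Units.inv_mul, one_mul]
  have h3 := congrFun (congrFun h2 i) j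
  rw [mul_dg_apply, dg_mul_apply] at h3
  by_contra hne
  have h4 : (2 : K) ^ w j = ((2 : K)⁻¹) ^ w i := by
    have h5 : (n0⁻¹).val i j * (2 : K) ^ w j = (n0⁻¹).val i j * ((2 : K)⁻¹) ^ w i := by
      rw [h3, mul_comm]
    exact mul_left_cancel₀ hne h5
  have h20 : (2 : K) ≠ 0 := two_ne_zero
  have h5 : (2 : K) ^ (w i + w j) = 1 := by
    rw [zpow_add₀ h20, h4, inv_zpow, mul_inv_cancel₀ (zpow_ne_zero _ h20)]
  have h6 : ∀ z : ℤ, (2 : K) ^ z = 1 → z = 0 := by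
    have h7 : ∀ m : ℕ, (2 : K) ^ m = 1 → m = 0 := by
      intro m hm
      have h8 : (2 : ℕ) ^ m = 1 := by exact_mod_cast hm
      by_contra h9
      exact absurd h8 (Nat.one_lt_two_pow h9).ne'
    intro z hz
    obtain ⟨m, rfl | rfl⟩ := z.eq_nat_or_neg
    · rw [zpow_natCast] at hz
      rw [h7 m hz]
      rfl
    · rw [zpow_neg, zpow_natCast, inv_eq_one] at hz
      rw [h7 m hz]
      rfl
  have h7 := h6 _ h5
  exact hij (by omega)

/-- the unipotent radical meets the opposite parabolic trivially -/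
theorem opp {n0 u : (Matrix ι ι K)ˣ} (hn0 : ∀ i j, w i ≠ - w j → n0.val i j = 0) (hu : u ∈ E w 0)
    (h : n0⁻¹ * u * n0 ∈ P w) : u = 1 := by
  have hn0' := weyl_inv hn0
  have h1 : (n0⁻¹).val * (u.val - 1) * n0.val = 0 := by
    ext i j
    rw [Matrix.zero_apply]
    by_cases hij : w i < w j
    · have h2 : (n0⁻¹).val * (u.val - 1) * n0.val = (n0⁻¹ * u * n0).val - 1 := by
        rw [Units.val_mul, Units.val_mul, mul_sub, mul_one, sub_mul, Units.inv_mul]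
      rw [h2, Matrix.sub_apply, h.1 i j (by omega), Matrix.one_apply_ne, sub_zero]
      rintro rfl
      omega
    · rw [Matrix.mul_apply]
      refine Finset.sum_eq_zero fun p _ => ?_
      by_cases hp : w p = - w j
      · rw [Matrix.mul_apply, Finset.sum_mul]
        refine Finset.sum_eq_zero fun l _ => ?_
        by_cases hl : w i = - w l
        · have h3 := hu.1 l p (by push_cast; omega)
          rw [h3, mul_zero, zero_mul]
        · rw [hn0' i l hl, zero_mul, zero_mul]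
      · rw [hn0 p j hp, mul_zero]
  have h2 : u.val - 1 = 0 := by
    calc u.val - 1 = n0.val * ((n0⁻¹).val * (u.val - 1) * n0.val) * (n0⁻¹).val := by
          rw [← mul_assoc, ← mul_assoc, Units.mul_inv, one_mul, mul_assoc, Units.mul_inv, mul_one]
      _ = 0 := by rw [h1, mul_zero, zero_mul]
  ext1
  rw [Units.val_one]
  exact sub_eq_zero.1 h2

/-- the unipotent radical is torsion free -/
theorem pow_ne_one {u : (Matrix ι ι K)ˣ} (hu : u ∈ E w 0) (hu1 : u ≠ 1) {m : ℕ} (hm : 0 < m) :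
    u ^ m ≠ 1 := by
  intro h
  have h1 : ∀ k : ℕ, u ∈ E w k := by
    intro k
    induction k with
    | zero => exact hu
    | succ k ih =>
      refine gr_eq_zero ih ?_
      have h2 := gr_pow ih m
      rw [h, gr_one] at h2
      have h3 : (m : K) • gr w k u = 0 := by rw [Nat.cast_smul_eq_nsmul, ← h2]
      exact (smul_eq_zero.1 h3).resolve_left (by exact_mod_cast hm.ne')
  obtain ⟨l, hl⟩ := exists_E_bot (w := w) (ι := ι) (K := K)
  have h2 := h1 l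
  rw [hl, Subgroup.mem_bot] at h2
  exact hu1 h2

end weyl

theorem dvd_choose {d r m j : ℕ} (hj : 0 < j) (hjr : j ≤ r) (hm : d * r.factorial ∣ m) :
    d ∣ m.choose j := by
  obtain ⟨t, rfl⟩ := hm
  obtain ⟨j, rfl⟩ := Nat.exists_eq_succ_of_ne_zero hj.ne'
  rcases Nat.eq_zero_or_pos (d * r.factorial * t) with h0 | hpos
  · rw [h0, Nat.choose_eq_zero_of_lt (by omega)]
    exact dvd_zero d
  obtain ⟨s, hs⟩ := Nat.dvd_factorial hj hjr
  obtain ⟨n, hn⟩ := Nat.exists_eq_succ_of_ne_zero hpos.ne'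
  have h1 := Nat.add_one_mul_choose_eq n j
  have h2 : (d * r.factorial * t).choose (j + 1) * (j + 1) = d * (s * t * n.choose j) * (j + 1) := by
    rw [hn]
    change (n + 1).choose (j + 1) * (j + 1) = _
    rw [← h1]
    have h3 : n + 1 = d * ((j + 1) * s) * t := by
      rw [← hs]
      exact hn.symm
    rw [h3]
    ring
  exact ⟨_, Nat.eq_of_mul_eq_mul_right (Nat.succ_pos j) h2⟩

variable [NumberField K] {A : Subring K}

/-- powers of unipotent matrices are integral -/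
theorem unip_pow (hA : BoomNF.SRing A) {M : Matrix ι ι K} {r : ℕ} (hM : (M - 1) ^ r = 0) :
    ∃ m0 : ℕ, 0 < m0 ∧ ∀ m, m0 ∣ m → ∀ i j, (M ^ m) i j ∈ A := by
  classical
  obtain ⟨d, hd, hd'⟩ := den_fin hA fun p : Fin (r + 1) × ι × ι => ((M - 1) ^ (p.1 : ℕ)) p.2.1 p.2.2
  refine ⟨d * r.factorial, Nat.mul_pos hd (Nat.factorial_pos r), fun m hm i j => ?_⟩
  have h1 : M ^ m = ((M - 1) + 1) ^ m := by rw [sub_add_cancel]
  rw [h1, (Commute.one_right (M - 1)).add_pow, Matrix.sum_apply]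
  refine A.sum_mem fun l _ => ?_
  rw [one_pow, mul_one, ← nsmul_eq_mul', Matrix.smul_apply, nsmul_eq_mul]
  rcases Nat.eq_zero_or_pos l with rfl | hl
  · rw [pow_zero, Matrix.one_apply]
    refine A.mul_mem (natCast_mem A _) ?_
    split_ifs
    · exact A.one_mem
    · exact A.zero_mem
  · by_cases hlr : l ≤ r
    · obtain ⟨c, hc⟩ := dvd_choose hl hlr hm
      rw [hc]
      push_cast
      have h2 := hd' (⟨l, by omega⟩, i, j)
      have h3 : (d : K) * c * ((M - 1) ^ l) i j = c * (d * ((M - 1) ^ l) i j) := by ring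
      rw [h3]
      exact A.mul_mem (natCast_mem A _) h2
    · obtain ⟨c, hc⟩ := Nat.exists_eq_add_of_le (le_of_not_ge hlr)
      rw [hc, pow_add, hM, zero_mul, Matrix.zero_apply, mul_zero]
      exact A.zero_mem

theorem E_nilp {w : ι → ℤ} {u : (Matrix ι ι K)ˣ} (hu : u ∈ E w 0) : ∃ r : ℕ, (u.val - 1) ^ r = 0 := by
  have h1 : ∀ r : ℕ, (u.val - 1) ^ r ∈ Fil w (r : ℤ) := by
    intro r
    induction r with
    | zero =>
      rw [pow_zero]
      exact fil_one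
    | succ r ih =>
      rw [pow_succ]
      have := fil_mul ih hu.1
      push_cast
      simpa using this
  obtain ⟨B, hB⟩ : ∃ B : ℤ, ∀ i, w i ≤ B := by
    obtain ⟨B, hB⟩ := (Set.finite_range w).bddAbove
    exact ⟨B, fun i => hB ⟨i, rfl⟩⟩
  obtain ⟨C, hC⟩ : ∃ C : ℤ, ∀ i, C ≤ w i := by
    obtain ⟨C, hC⟩ := (Set.finite_range w).bddBelow
    exact ⟨C, fun i => hC ⟨i, rfl⟩⟩
  refine ⟨(B - C).toNat + 1, ?_⟩
  ext i j
  have h2 := hB i
  have h3 := hC j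
  exact h1 _ i j (by push_cast; omega)

/-- powers of conjugates of elements of the unipotent radical are integral -/
theorem unip_int (hA : BoomNF.SRing A) {w : ι → ℤ} (g : (Matrix ι ι K)ˣ) {u : (Matrix ι ι K)ˣ}
    (hu : u ∈ E w 0) : ∃ m : ℕ, 0 < m ∧ (g * u * g⁻¹) ^ m ∈ GLA ι A := by
  have key : ∀ u : (Matrix ι ι K)ˣ, u ∈ E w 0 → ∃ m0 : ℕ, 0 < m0 ∧ ∀ m, m0 ∣ m →
      ∀ i j, ((g * u * g⁻¹) ^ m).val i j ∈ A := by
    intro u hu
    obtain ⟨r, hr⟩ := E_nilp hu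
    have h1 : ((g * u * g⁻¹).val - 1) ^ r = 0 := by
      have h2 : (g * u * g⁻¹).val - 1 = g.val * (u.val - 1) * (g⁻¹).val := by
        rw [Units.val_mul, Units.val_mul, mul_sub, mul_one, sub_mul, Units.mul_inv]
      have h3 : ∀ r : ℕ, (g.val * (u.val - 1) * (g⁻¹).val) ^ r = g.val * (u.val - 1) ^ r * (g⁻¹).val := by
        intro r
        induction r with
        | zero => rw [pow_zero, pow_zero, mul_one, Units.mul_inv]
        | succ r ih =>
          rw [pow_succ, ih, pow_succ]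
          have h4 : g.val * (u.val - 1) ^ r * (g⁻¹).val * (g.val * (u.val - 1) * (g⁻¹).val) =
              g.val * (u.val - 1) ^ r * ((g⁻¹).val * g.val) * (u.val - 1) * (g⁻¹).val := by
            simp only [mul_assoc]
          rw [h4, Units.inv_mul, mul_one]
          simp only [mul_assoc]
      rw [h2, h3, hr, mul_zero, zero_mul]
    obtain ⟨m0, hm0, h2⟩ := unip_pow hA h1
    refine ⟨m0, hm0, fun m hm i j => ?_⟩
    rw [Units.val_pow_eq_pow_val]
    exact h2 m hm i j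
  obtain ⟨m1, hm1, h1⟩ := key u hu
  obtain ⟨m2, hm2, h2⟩ := key u⁻¹ ((E w 0).inv_mem hu)
  refine ⟨m1 * m2, Nat.mul_pos hm1 hm2, h1 _ (Dvd.intro _ rfl), ?_⟩
  have h3 : ((g * u * g⁻¹) ^ (m1 * m2))⁻¹ = (g * u⁻¹ * g⁻¹) ^ (m1 * m2) := by
    rw [conj_pow, conj_pow, inv_pow]
    group
  rw [h3]
  exact h2 _ (Dvd.intro_left _ rfl)

/-- **the dichotomy** -/
theorem dichotomy (hA : BoomNF.SRing A) {e : K} (he : BoomNF.InfUnit A e) {w : ι → ℤ}
    {G Γ D : Subgroup (Matrix ι ι K)ˣ} (hΓG : Γ ≤ G) (hT : ∀ a : Kˣ, tor w a ∈ G)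
    {n0 : (Matrix ι ι K)ˣ} (hn0 : ∀ i j, w i ≠ - w j → n0.val i j = 0)
    (hB : ∀ g ∈ G, g ∈ P w ∨ ∃ a b, a ∈ G ∧ b ∈ G ∧ a ∈ P w ∧ b ∈ P w ∧ g = a * n0 * b)
    (h1 : (G ⊓ GLA ι A).relIndex Γ ≠ 0) (h2 : Γ.relIndex (G ⊓ GLA ι A) ≠ 0)
    (hDΓ : D ≤ Γ) (hR : Rec Γ D) :
    (∀ g ∈ G, ∀ δ ∈ D, g⁻¹ * δ * g ∈ P w) ∨
      ∀ g ∈ G, (D ⊓ cj g (E w 0)).relIndex (Γ ⊓ cj g (E w 0)) ≠ 0 := by
  classical
  by_cases hcase : ∀ g ∈ G, ∀ δ ∈ D, g⁻¹ * δ * g ∈ P w
  · exact Or.inl hcase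
  right
  push Not at hcase
  obtain ⟨g1, hg1, δ1, hδ1, hgδ1⟩ := hcase
  intro g hg
  by_cases hB2 : ∃ δ ∈ D, g⁻¹ * δ * g ∉ P w
  · obtain ⟨δ, hδ, hgδ⟩ := hB2
    exact (local_conj hA he hΓG hT hn0 hB h1 h2 hDΓ hR hg hδ hgδ).relIndex
  push Not at hB2
  -- then the unipotent radical of `Γ` at `g` is trivial
  have htriv : ∀ x ∈ Γ ⊓ cj g (E w 0), x = 1 := by
    rintro x ⟨hx, hx'⟩
    by_contra hx1
    replace hx' := mem_cj.1 hx'
    set u : (Matrix ι ι K)ˣ := g⁻¹ * x * g with hu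
    have hu1 : u ≠ 1 := by
      intro h3
      apply hx1
      have h4 : x = g * u * g⁻¹ := by
        rw [hu]
        group
      rw [h4, h3]
      group
    have huG : u ∈ G := G.mul_mem (G.mul_mem (G.inv_mem hg) (hΓG hx)) hg
    obtain ⟨m, hm, hm'⟩ := unip_int hA g1 hx'
    have h3 : (g1 * u * g1⁻¹) ^ m ∈ G ⊓ GLA ι A :=
      ⟨G.pow_mem (G.mul_mem (G.mul_mem hg1 huG) (G.inv_mem hg1)) m, hm'⟩
    obtain ⟨s, hs, -, hs'⟩ := Subgroup.exists_pow_mem_of_relIndex_ne_zero h2 h3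
    have hi := (local_conj hA he hΓG hT hn0 hB h1 h2 hDΓ hR hg1 hδ1 hgδ1).relIndex
    have h4 : ((g1 * u * g1⁻¹) ^ m) ^ s ∈ Γ ⊓ cj g1 (E w 0) := by
      refine ⟨hs'.1, mem_cj.2 ?_⟩
      rw [← pow_mul, conj_pow]
      have h5 : g1⁻¹ * (g1 * u ^ (m * s) * g1⁻¹) * g1 = u ^ (m * s) := by group
      rw [h5]
      exact (E w 0).pow_mem hx' _
    obtain ⟨q, hq, -, hq'⟩ := Subgroup.exists_pow_mem_of_relIndex_ne_zero hi h4
    have hM : 0 < m * s * q := Nat.mul_pos (Nat.mul_pos hm hs) hq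
    have h5 : g1 * u ^ (m * s * q) * g1⁻¹ ∈ D := by
      have h6 := hq'.1.1
      rw [← pow_mul, ← pow_mul, conj_pow, ← mul_assoc] at h6
      exact h6
    have hne := pow_ne_one hx' hu1 hM
    have h6 := hB2 _ h5
    rcases hB _ (G.mul_mem (G.inv_mem hg1) hg) with hc | ⟨a, b, ha, hb, haP, hbP, hab⟩
    · apply hgδ1
      have h7 : g1⁻¹ * δ1 * g1 = (g1⁻¹ * g) * (g⁻¹ * δ1 * g) * (g1⁻¹ * g)⁻¹ := by group
      rw [h7]
      exact (P w).mul_mem ((P w).mul_mem hc (hB2 δ1 hδ1)) ((P w).inv_mem hc)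
    · have h7 : g⁻¹ * (g1 * u ^ (m * s * q) * g1⁻¹) * g =
          b⁻¹ * (n0⁻¹ * (a⁻¹ * u ^ (m * s * q) * a) * n0) * b := by
        have h8 : g = g1 * (a * n0 * b) := by
          rw [← hab]
          group
        rw [h8]
        group
      rw [h7] at h6
      have h8 : n0⁻¹ * (a⁻¹ * u ^ (m * s * q) * a) * n0 ∈ P w := by
        have h9 := (P w).mul_mem ((P w).mul_mem hbP h6) ((P w).inv_mem hbP)
        have h10 : b * (b⁻¹ * (n0⁻¹ * (a⁻¹ * u ^ (m * s * q) * a) * n0) * b) * b⁻¹ =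
            n0⁻¹ * (a⁻¹ * u ^ (m * s * q) * a) * n0 := by group
        rwa [h10] at h9
      have h9 := opp hn0 (E_conj haP ((E w 0).pow_mem hx' _)) h8
      apply hne
      have h10 : u ^ (m * s * q) = a * (a⁻¹ * u ^ (m * s * q) * a) * a⁻¹ := by group
      rw [h10, h9]
      group
  have h3 : FM (D ⊓ cj g (E w 0)) ((Γ ⊓ cj g (E w 0) : Subgroup (Matrix ι ι K)ˣ) : Set (Matrix ι ι K)ˣ) := by
    refine ⟨{1}, Set.finite_singleton _, fun x hx => ?_⟩
    exact ⟨1, Subgroup.one_mem _, 1, rfl, by rw [htriv x hx, mul_one]⟩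
  exact h3.relIndex

/-- elements which fix all cusps centralise the unipotent radicals -/
theorem central_of_fix {w : ι → ℤ} {G : Subgroup (Matrix ι ι K)ˣ} {n0 : (Matrix ι ι K)ˣ} (hn0G : n0 ∈ G)
    (hn0 : ∀ i j, w i ≠ - w j → n0.val i j = 0) {δ : (Matrix ι ι K)ˣ}
    (h : ∀ g ∈ G, g⁻¹ * δ * g ∈ P w) {g u : (Matrix ι ι K)ˣ} (hg : g ∈ G) (hu : u ∈ G)
    (hu' : u ∈ E w 0) : Commute δ (g * u * g⁻¹) := by
  set d : (Matrix ι ι K)ˣ := g⁻¹ * δ * g with hd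
  have hdP : d ∈ P w := h g hg
  have hfix : ∀ x ∈ G, x⁻¹ * d * x ∈ P w := by
    intro x hx
    have h1 := h (g * x) (G.mul_mem hg hx)
    have h2 : (g * x)⁻¹ * δ * (g * x) = x⁻¹ * d * x := by
      rw [hd]
      group
    rwa [h2] at h1
  have h1 : d * u * d⁻¹ * u⁻¹ = 1 := by
    refine opp hn0 (w := w) ?_ ?_
    · have h2 := E_conj ((P w).inv_mem hdP) hu'
      rw [inv_inv] at h2
      exact (E w 0).mul_mem h2 ((E w 0).inv_mem hu')
    · have h2 : n0⁻¹ * (d * u * d⁻¹ * u⁻¹) * n0 =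
          (n0⁻¹ * d * n0) * ((u⁻¹ * n0)⁻¹ * d * (u⁻¹ * n0))⁻¹ := by group
      rw [h2]
      exact (P w).mul_mem (hfix _ hn0G) ((P w).inv_mem (hfix _ (G.mul_mem (G.inv_mem hu) hn0G)))
  have h2 : d * u = u * d := by
    have h3 : d * u = (d * u * d⁻¹ * u⁻¹) * (u * d) := by group
    rw [h3, h1, one_mul]
  change δ * (g * u * g⁻¹) = g * u * g⁻¹ * δ
  have h3 : δ = g * d * g⁻¹ := by
    rw [hd]
    group
  have h4 : g * d * g⁻¹ * (g * u * g⁻¹) = g * (d * u) * g⁻¹ := by group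
  have h5 : g * u * g⁻¹ * (g * d * g⁻¹) = g * (u * d) * g⁻¹ := by group
  rw [h3, h4, h5, h2]

end BoomRO
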